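import Pool.Agent.Q187.RK.Main

/-!
# The positivity argument for invariants defined under a condition
-/

open CategoryTheory AlgebraicGeometry

universe u v w

namespace Pool.Agent.Q187.HT

open Pool.Agent.H914 Pool.Agent.H914.VarClass Pool.Agent.H914.VarClass.Obj Pool.Agent.W492.BB
  Pool.Agent.W550.Corr Pool.Agent.TH133 Pool.Agent.Y148.BB Pool.Agent.Q187.AJ Pool.Agent.Q187.RK

set_option linter.unusedSectionVars false
set_option linter.unusedVariables false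

variable {k : Type u} [Field k] {𝒱 : VarClass k}

variable {C : TheoryData.{u, v, 0} 𝒱 ℚ} [hC : IsChowProj C] {K : Type w} [Field K]
  {H : WeilTheoryData.{u, v, w} C K} [hH : IsWeilProj H] {X Y Z W B P M L : 𝒱.Obj}
  {e : ∀ X : 𝒱.Obj, C.A (X.prod X) → ℤ → ℤ} {A : Type*} [AddCommGroup A]
  {δ : ∀ X : 𝒱.Obj, C.A (X.prod X) → ℤ → A}

/-- No homologically trivial cycles in codimension `j`, nor in the dual codimension. -/
def Bot2 (H : WeilTheoryData.{u, v, w} C K) (p : C.A (X.prod X)) (j : ℤ) : Prop :=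
  homTriv C H p j = ⊥ ∧ homTriv C H (tp C p) (X.dim + 1 - j) = ⊥

/-- A condition on motives, compatible with direct sums and isomorphisms. -/
structure IsFn (H : WeilTheoryData.{u, v, w} C K) (fn : ∀ X : 𝒱.Obj, C.A (X.prod X) → ℤ → Prop) :
    Prop where
  add : ∀ (X : 𝒱.Obj) (p q : C.A (X.prod X)) (j : ℤ), Pr p → Pr q →
    C.comp p q = 0 → C.comp q p = 0 → (fn X (p + q) j ↔ fn X p j ∧ fn X q j)
  iso : ∀ (X Y : 𝒱.Obj) (p : C.A (X.prod X)) (q : C.A (Y.prod Y)) (c j : ℤ) (f : C.A (X.prod Y))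
    (g : C.A (Y.prod X)), Pr p → Pr q → C.Deg (X.dim + c) f →
    C.Deg (Y.dim - c) g → C.comp f g = p → C.comp g f = q → (fn X p j ↔ fn Y q (j + c))
  zero : ∀ (X : 𝒱.Obj) (p : C.A (X.prod X)) (j : ℤ), Pr p → Bot2 H p j → fn X p j

/-- An additive invariant, for motives with the condition `fn`. -/
structure IsDef (H : WeilTheoryData.{u, v, w} C K) (fn : ∀ X : 𝒱.Obj, C.A (X.prod X) → ℤ → Prop)
    {A : Type*} [AddCommGroup A] (δ : ∀ X : 𝒱.Obj, C.A (X.prod X) → ℤ → A) : Prop where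
  isFn : IsFn H fn
  add : ∀ (X : 𝒱.Obj) (p q : C.A (X.prod X)) (j : ℤ), Pr p → Pr q →
    C.comp p q = 0 → C.comp q p = 0 → fn X p j → fn X q j → δ X (p + q) j = δ X p j + δ X q j
  iso : ∀ (X Y : 𝒱.Obj) (p : C.A (X.prod X)) (q : C.A (Y.prod Y)) (c j : ℤ) (f : C.A (X.prod Y))
    (g : C.A (Y.prod X)), Pr p → Pr q → C.Deg (X.dim + c) f →
    C.Deg (Y.dim - c) g → C.comp f g = p → C.comp g f = q → δ X p j = δ Y q (j + c)
  zero : ∀ (X : 𝒱.Obj) (p : C.A (X.prod X)) (j : ℤ), Pr p → Kills H p (2 * j - 1) →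
    Bot2 H p j → δ X p j = 0

variable {fn : ∀ X : 𝒱.Obj, C.A (X.prod X) → ℤ → Prop}

include hC hH

lemma bot2_zero (j : ℤ) : Bot2 H (0 : C.A (X.prod X)) j := by
  refine ⟨homTriv_zero j, ?_⟩
  rw [tp_zero]
  exact homTriv_zero _

lemma ext_bot {a a' : C.A B} {s : ℤ} (ha : a ∈ C.gr B s) (j : ℤ) :
    homTriv C H (C.ext a a') j = ⊥ := by
  rw [eq_bot_iff]
  rintro z ⟨hz, h0, hzz⟩
  have h0' : H.cl z = 0 := h0
  have h1 : a * z ∈ C.gr B (s + j) := C.mul_mem ha hz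
  rw [Submodule.mem_bot, ← hzz]
  by_cases hj : s + j = B.dim
  · have h2 : HasDegree C (a * z) 0 :=
      hasDegree_zero_of_cl H (by rw [← hj]; exact h1) (by rw [map_mul, h0', mul_zero])
    rw [act_ext' h2, zero_smul]
  · rw [act_ext' (RK.hasDegree_of_ne h1 hj), zero_smul]

lemma ext_bot2 {a a' : C.A B} {s s' : ℤ} (ha : a ∈ C.gr B s) (ha' : a' ∈ C.gr B s') (j : ℤ) :
    Bot2 H (C.ext a a') j := by
  refine ⟨ext_bot ha j, ?_⟩
  rw [tp_ext]
  exact ext_bot ha' _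

section fn

variable (hfn : IsFn H fn)
include hfn

lemma fn_zero' (j : ℤ) : fn X 0 j := hfn.zero X 0 j pr_zero (bot2_zero j)

lemma fn_sum' {ι : Type*} {p : ι → C.A (X.prod X)} (hp : Orth p) (s : Finset ι) (j : ℤ) :
    fn X (∑ i ∈ s, p i) j ↔ ∀ i ∈ s, fn X (p i) j := by
  classical
  induction s using Finset.induction_on with
  | empty => simp [fn_zero' hfn]
  | insert a s ha ih =>
    obtain ⟨h1, h2⟩ := orth_sum hp s
    rw [Finset.sum_insert ha, hfn.add X _ _ j (hp.1 a) h1 (h2 a ha).2 (h2 a ha).1, ih]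
    simp

lemma fn_var' {f : X ⟶ Y} {g : Y ⟶ X} (h1 : f ≫ g = 𝟙 X) (h2 : g ≫ f = 𝟙 Y) (hd : X.dim = Y.dim)
    {p : C.A (Y.prod Y)} (hp : Pr p) (j : ℤ) :
    fn X (C.pull (prodMap f f) p) j ↔ fn Y p j := by
  obtain ⟨h0, F, G, hF, hG, h3, h4⟩ := pull_iso_data h1 h2 hd hp
  rw [hfn.iso X Y _ p 0 j F G h0 hp hF hG h3 h4, add_zero]

variable {b : C.A (B.prod B)} {κ : Type} [Fintype κ] [DecidableEq κ] {a a' : κ ⊕ κ → C.A B}
  {t : κ ⊕ κ → ℕ} {ι : Type} [Fintype ι]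

lemma fn_twist' (h : Mid H B b a a' t) {q : C.A (X.prod X)} (hq : Pr q) (i : κ ⊕ κ) (j : ℤ) :
    fn (X.prod B) (tens C q (C.ext (a i) (a' i))) j ↔ fn X q (j - t i) := by
  obtain ⟨F, G, hF, hG, h1, h2⟩ := twist_data h hq i
  rw [hfn.iso _ _ _ _ _ j F G ((mid_split h hq).2.1.1 i) hq hF hG h1 h2, ← sub_eq_add_neg]

lemma fn_split' (h : Mid H B b a a' t) {q : C.A (X.prod X)} (hq : Pr q) (j : ℤ) :
    fn (X.prod B) (tens C q (dg C B)) j ↔
      fn (X.prod B) (tens C q b) j ∧ ∀ i, fn X q (j - t i) := by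
  obtain ⟨h1, h2, h3, h4, h5⟩ := mid_split h hq
  rw [h3, hfn.add _ _ _ j h1 (orth_sum h2 Finset.univ).1 h4 h5, fn_sum' hfn h2]
  simp only [Finset.mem_univ, true_implies, fn_twist' hfn h hq]

lemma fn_tate (h : Mid H B b a a' t) (i : κ ⊕ κ) (j : ℤ) : fn B (C.ext (a i) (a' i)) j :=
  hfn.zero B _ j ((mid_orth h).1 i) (ext_bot2 (h.deg_a i) (h.deg_a' i) j)

lemma fn_mid' (h : Mid H B b a a' t) (j : ℤ) : fn B (dg C B) j ↔ fn B b j := by
  obtain ⟨h1, h2, h3⟩ := compl_orth (mid_orth h) h.sum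
  rw [← h.sum, hfn.add _ _ _ j h1 (orth_sum (mid_orth h) Finset.univ).1 h2 h3,
    fn_sum' hfn (mid_orth h)]
  exact ⟨fun h => h.1, fun h4 => ⟨h4, fun i _ => fn_tate hfn h i j⟩⟩

end fn

variable (hδ : IsDef H fn δ)
include hδ

lemma δ_zero' (j : ℤ) : δ X 0 j = 0 := hδ.zero X 0 j pr_zero (kills_zero _) (bot2_zero j)

lemma δ_sum' {ι : Type*} {p : ι → C.A (X.prod X)} (hp : Orth p) (s : Finset ι) {j : ℤ}
    (hf : ∀ i ∈ s, fn X (p i) j) : δ X (∑ i ∈ s, p i) j = ∑ i ∈ s, δ X (p i) j := by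
  classical
  induction s using Finset.induction_on with
  | empty => simp [δ_zero' hδ]
  | insert a s ha ih =>
    obtain ⟨h1, h2⟩ := orth_sum hp s
    have h3 : ∀ i ∈ s, fn X (p i) j := fun i hi => hf i (Finset.mem_insert_of_mem hi)
    rw [Finset.sum_insert ha, Finset.sum_insert ha, hδ.add X _ _ j (hp.1 a) h1 (h2 a ha).2
      (h2 a ha).1 (hf a (Finset.mem_insert_self a s)) ((fn_sum' hδ.isFn hp s j).2 h3), ih h3]

lemma δ_var' {f : X ⟶ Y} {g : Y ⟶ X} (h1 : f ≫ g = 𝟙 X) (h2 : g ≫ f = 𝟙 Y) (hd : X.dim = Y.dim)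
    {p : C.A (Y.prod Y)} (hp : Pr p) (j : ℤ) :
    δ X (C.pull (prodMap f f) p) j = δ Y p j := by
  obtain ⟨h0, F, G, hF, hG, h3, h4⟩ := pull_iso_data h1 h2 hd hp
  rw [hδ.iso X Y _ p 0 j F G h0 hp hF hG h3 h4, add_zero]

section mid

variable {b : C.A (B.prod B)} {κ : Type} [Fintype κ] [DecidableEq κ] {a a' : κ ⊕ κ → C.A B}
  {t : κ ⊕ κ → ℕ} {ι : Type} [Fintype ι]

lemma δ_twist' (h : Mid H B b a a' t) {q : C.A (X.prod X)} (hq : Pr q) (i : κ ⊕ κ) (j : ℤ) :
    δ (X.prod B) (tens C q (C.ext (a i) (a' i))) j = δ X q (j - t i) := by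
  obtain ⟨F, G, hF, hG, h1, h2⟩ := twist_data h hq i
  rw [hδ.iso _ _ _ _ _ j F G ((mid_split h hq).2.1.1 i) hq hF hG h1 h2, ← sub_eq_add_neg]

lemma δ_split' (h : Mid H B b a a' t) {q : C.A (X.prod X)} (hq : Pr q) {j : ℤ}
    (hf : fn (X.prod B) (tens C q (dg C B)) j) :
    δ (X.prod B) (tens C q (dg C B)) j =
      δ (X.prod B) (tens C q b) j + ∑ i, δ X q (j - t i) := by
  obtain ⟨h1, h2, h3, h4, h5⟩ := mid_split h hq
  obtain ⟨h6, h7⟩ := (fn_split' hδ.isFn h hq j).1 hf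
  have h8 : ∀ i ∈ Finset.univ, fn (X.prod B) (tens C q (C.ext (a i) (a' i))) j :=
    fun i _ => (fn_twist' hδ.isFn h hq i j).2 (h7 i)
  rw [h3, hδ.add _ _ _ j h1 (orth_sum h2 Finset.univ).1 h4 h5 h6
    ((fn_sum' hδ.isFn h2 Finset.univ j).2 h8), δ_sum' hδ h2 Finset.univ h8]
  simp only [δ_twist' hδ h hq]

lemma δ_mid' (h : Mid H B b a a' t) {j : ℤ} (hf : fn B (dg C B) j) :
    δ B (dg C B) j = δ B b j := by
  obtain ⟨h1, h2, h3⟩ := compl_orth (mid_orth h) h.sum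
  have h4 : ∀ i ∈ Finset.univ, fn B (C.ext (a i) (a' i)) j :=
    fun i _ => fn_tate hδ.isFn h i j
  have h5 : ∀ i ∈ Finset.univ, δ B (C.ext (a i) (a' i)) j = 0 := fun i _ =>
    hδ.zero B _ j ((mid_orth h).1 i) (fun y hy =>
      act_ext_ne (h.deg_a' i) (h.deg_a i) (by omega) hy) (ext_bot2 (h.deg_a i) (h.deg_a' i) j)
  have h7 : δ B (b + ∑ i, C.ext (a i) (a' i)) j =
      δ B b j + δ B (∑ i, C.ext (a i) (a' i)) j :=
    hδ.add B _ _ j h1 (orth_sum (mid_orth h) Finset.univ).1 h2 h3 ((fn_mid' hδ.isFn h j).1 hf)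
      ((fn_sum' hδ.isFn (mid_orth h) Finset.univ j).2 h4)
  rw [h.sum] at h7
  rw [h7, δ_sum' hδ (mid_orth h) Finset.univ h4, Finset.sum_eq_zero h5, add_zero]

end mid

/-! ### The averaged formula -/

omit hC hH hδ in
/-- The averaged formula for `(X, q)`, in the codimensions `j ≤ N` with `dim X + 1 - j ≤ N`. -/
def Sy (fn : ∀ X : 𝒱.Obj, C.A (X.prod X) → ℤ → Prop) {A : Type*} [AddCommGroup A]
    (δ : ∀ X : 𝒱.Obj, C.A (X.prod X) → ℤ → A) (N : ℤ) (X : 𝒱.Obj) (q : C.A (X.prod X)) : Prop :=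
  ∀ j : ℤ, j ≤ N → (X.dim : ℤ) + 1 - j ≤ N →
    fn X q j ∧ (2 * j = X.dim + 1 → δ X q j = 0) ∧ δ X q j + δ X q (X.dim + 1 - j) = 0

lemma fnL' {o : C.A L} (h : IsLine C L o) {q : C.A (X.prod X)} (hq : Pr q) (j : ℤ) :
    fn (X.prod L) (tens C q (dg C L)) j ↔ fn X q j ∧ fn X q (j - 1) := by
  rw [fn_split' hδ.isFn (mid_line h) hq j, tens_zero_right]
  constructor
  · rintro ⟨_, h1⟩
    have h2 := h1 (Sum.inr ())
    have h3 := h1 (Sum.inl ())
    simp only [Sum.elim_inl, Sum.elim_inr, Nat.cast_zero, sub_zero, Nat.cast_one] at h2 h3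
    exact ⟨h2, h3⟩
  · rintro ⟨h1, h2⟩
    refine ⟨fn_zero' hδ.isFn j, ?_⟩
    rintro (_ | _)
    · simpa using h2
    · simpa using h1

lemma δL' {o : C.A L} (h : IsLine C L o) {q : C.A (X.prod X)} (hq : Pr q)
    {j : ℤ} (hf : fn (X.prod L) (tens C q (dg C L)) j) :
    δ (X.prod L) (tens C q (dg C L)) j = δ X q j + δ X q (j - 1) := by
  rw [δ_split' hδ (mid_line h) hq hf, tens_zero_right, δ_zero' hδ, Fintype.sum_sum_type, zero_add]
  simp only [Finset.univ_unique, Sum.elim_inl, Sum.elim_inr, Finset.sum_const,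
    Finset.card_singleton, one_smul, Nat.cast_zero, sub_zero, Nat.cast_one]
  rw [add_comm]

section transport

variable {f : X ⟶ Y} {g : Y ⟶ X} {N : ℤ}

lemma sy_var (h1 : f ≫ g = 𝟙 X) (h2 : g ≫ f = 𝟙 Y) (hd : X.dim = Y.dim)
    {p : C.A (Y.prod Y)} (hp : Pr p) (h : Sy fn δ N Y p) :
    Sy fn δ N X (C.pull (prodMap f f) p) := by
  intro j hj hj'
  rw [hd] at hj' ⊢
  rw [fn_var' hδ.isFn h1 h2 hd hp, δ_var' hδ h1 h2 hd hp, δ_var' hδ h1 h2 hd hp]
  exact h j hj hj'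

end transport

variable {N : ℤ}

section step

variable {b : C.A (B.prod B)} {κ : Type} [Fintype κ] [DecidableEq κ] {a a' : κ ⊕ κ → C.A B}
  {t : κ ⊕ κ → ℕ}

/-- The averaged formula passes to the middle part of a factor. -/
lemma sy_step (h : Mid H B b a a' t) {q : C.A (X.prod X)} (hq : Pr q)
    (h1 : Sy fn δ N (X.prod B) (tens C q (dg C B))) (h2 : Sy fn δ N X q) :
    Sy fn δ N (X.prod B) (tens C q b) := by
  have hdim : ((X.prod B).dim : ℤ) = X.dim + B.dim := by rw [dim_prod]; push_cast; ring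
  have hpair : ∀ (j : ℤ) (s : κ), (X.dim : ℤ) + B.dim + 1 - j - t (Sum.inl s) =
      (X.dim : ℤ) + 1 - (j - t (Sum.inr s)) := by
    intro j s
    rw [h.refl s]
    ring
  intro j hj hj'
  rw [hdim] at hj' ⊢
  obtain ⟨h3, h4, h5⟩ := h1 j hj (by rw [hdim]; exact hj')
  obtain ⟨h6, -, -⟩ := h1 ((X.dim : ℤ) + B.dim + 1 - j) hj' (by rw [hdim]; linarith)
  rw [hdim] at h4 h5
  have h7 := δ_split' hδ h hq h3
  have h8 := δ_split' hδ h hq h6
  refine ⟨((fn_split' hδ.isFn h hq j).1 h3).1, fun hc => ?_, ?_⟩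
  · have h9 : ∑ i, δ X q (j - t i) = 0 := by
      rw [Fintype.sum_sum_type, ← Finset.sum_add_distrib]
      refine Finset.sum_eq_zero fun s _ => ?_
      have h10 := h.le (Sum.inr s)
      have h11 := hpair j s
      have h12 := (h2 (j - t (Sum.inr s)) (by omega) (by omega)).2.2
      have e1 : j - (t (Sum.inl s) : ℤ) = (X.dim : ℤ) + 1 - (j - t (Sum.inr s)) := by omega
      rw [e1, add_comm]
      exact h12
    rw [h4 hc, h9, add_zero] at h7
    exact h7.symm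
  · have h9 : ∑ i, δ X q (j - t i) + ∑ i, δ X q ((X.dim : ℤ) + B.dim + 1 - j - t i) = 0 := by
      rw [Fintype.sum_sum_type, Fintype.sum_sum_type]
      have e1 : ∑ s, δ X q ((X.dim : ℤ) + B.dim + 1 - j - t (Sum.inl s)) =
          ∑ s, δ X q ((X.dim : ℤ) + 1 - (j - t (Sum.inr s))) :=
        Finset.sum_congr rfl fun s _ => by rw [hpair j s]
      have e2 : ∑ s, δ X q ((X.dim : ℤ) + B.dim + 1 - j - t (Sum.inr s)) =
          ∑ s, δ X q ((X.dim : ℤ) + 1 - (j - t (Sum.inl s))) :=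
        Finset.sum_congr rfl fun s _ => by
          congr 1
          rw [h.refl s]
          ring
      have e3 : ∀ i, δ X q (j - t i) + δ X q ((X.dim : ℤ) + 1 - (j - t i)) = 0 := by
        intro i
        have hti := h.le i
        exact (h2 (j - t i) (by omega) (by omega)).2.2
      have e4 : ∑ s, δ X q (j - t (Sum.inl s)) +
          ∑ s, δ X q ((X.dim : ℤ) + 1 - (j - t (Sum.inl s))) = 0 := by
        rw [← Finset.sum_add_distrib]
        exact Finset.sum_eq_zero fun s _ => e3 _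
      have e5 : ∑ s, δ X q (j - t (Sum.inr s)) +
          ∑ s, δ X q ((X.dim : ℤ) + 1 - (j - t (Sum.inr s))) = 0 := by
        rw [← Finset.sum_add_distrib]
        exact Finset.sum_eq_zero fun s _ => e3 _
      have e6 : ∀ x y z w : A, x + z = 0 → y + w = 0 → (x + y) + (w + z) = 0 := by
        intro x y z w h1 h2
        have e7 : (x + y) + (w + z) = (x + z) + (y + w) := by abel
        rw [e7, h1, h2, add_zero]
      rw [e1, e2]
      exact e6 _ _ _ _ e4 e5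
    rw [h7, h8, add_add_add_comm, h9, add_zero] at h5
    exact h5

end step

section base

variable {𝓢 : 𝒱.Obj → Prop} {o : C.A L} (hL : IsLine C L o)
  (hS : ∀ X, 𝓢 X → 𝓢 (X.prod L))
  (hmid : ∀ X, 𝓢 X → ∀ i : ℤ, i ≤ N → (X.dim : ℤ) = 2 * i - 1 →
    fn X (dg C X) i ∧ δ X (dg C X) i = 0)
include hL hS hmid

lemma base_fn' : ∀ (s : ℕ) (X : 𝒱.Obj), 𝓢 X → ∀ j : ℤ, j ≤ N → (X.dim : ℤ) + 1 - j ≤ N →
    (2 * j - (X.dim + 1)).natAbs = s → fn X (dg C X) j := by
  intro s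
  induction s with
  | zero =>
    intro X hX j hj hj' hs
    exact (hmid X hX j hj (by omega)).1
  | succ s ih =>
    intro X hX j hj hj' hs
    have hdim : ((X.prod L).dim : ℤ) = X.dim + 1 := by rw [dim_prod, hL.1]; push_cast; ring
    rcases lt_or_ge (X.dim + 1 : ℤ) (2 * j) with h | h
    · have h1 := ih (X.prod L) (hS X hX) j hj (by rw [hdim]; omega) (by rw [hdim]; omega)
      rw [← tens_dg] at h1
      exact ((fnL' hδ hL (pr_dg X) j).1 h1).1
    · have h1 := ih (X.prod L) (hS X hX) (j + 1) (by omega) (by rw [hdim]; omega)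
        (by rw [hdim]; omega)
      rw [← tens_dg] at h1
      have h2 := ((fnL' hδ hL (pr_dg X) (j + 1)).1 h1).2
      rwa [add_sub_cancel_right] at h2

lemma base_δ' : ∀ (s : ℕ) (X : 𝒱.Obj), 𝓢 X → ∀ j : ℤ, j ≤ N → (X.dim : ℤ) + 1 - j ≤ N →
    (2 * j - (X.dim + 1)).natAbs ≤ s →
      δ X (dg C X) j + δ X (dg C X) (X.dim + 1 - j) = 0 := by
  intro s
  induction s with
  | zero =>
    intro X hX j hj hj' hs
    have e1 : (X.dim : ℤ) + 1 - j = j := by omega
    rw [e1, (hmid X hX j hj (by omega)).2, add_zero]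
  | succ s ih =>
    have key : ∀ X, 𝓢 X → ∀ j : ℤ, j ≤ N → (X.dim : ℤ) + 1 - j ≤ N →
        2 * j - (X.dim + 1) = s + 1 →
          δ X (dg C X) j + δ X (dg C X) (X.dim + 1 - j) = 0 := by
      intro X hX j hj hj' hs
      have hdim : ((X.prod L).dim : ℤ) = X.dim + 1 := by rw [dim_prod, hL.1]; push_cast; ring
      have h2 : fn (X.prod L) (tens C (dg C X) (dg C L)) j := by
        rw [tens_dg]
        exact base_fn' hδ hL hS hmid _ _ (hS X hX) j hj (by rw [hdim]; omega) rfl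
      rcases Nat.eq_zero_or_pos s with h0 | h0
      · have h1 := (hmid (X.prod L) (hS X hX) j hj (by rw [hdim]; omega)).2
        rw [← tens_dg, δL' hδ hL (pr_dg X) h2] at h1
        have e3 : j - 1 = (X.dim : ℤ) + 1 - j := by omega
        rw [e3] at h1
        exact h1
      · have h1 := ih (X.prod L) (hS X hX) j hj (by rw [hdim]; omega) (by rw [hdim]; omega)
        rw [hdim, ← tens_dg] at h1
        have h3 : fn (X.prod L) (tens C (dg C X) (dg C L)) ((X.dim : ℤ) + 1 + 1 - j) := by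
          rw [tens_dg]
          exact base_fn' hδ hL hS hmid _ _ (hS X hX) _ (by omega) (by rw [hdim]; omega) rfl
        rw [δL' hδ hL (pr_dg X) h2, δL' hδ hL (pr_dg X) h3] at h1
        have e1 : (X.dim : ℤ) + 1 + 1 - j - 1 = X.dim + 1 - j := by ring
        have e2 : (X.dim : ℤ) + 1 + 1 - j = X.dim + 1 - (j - 1) := by ring
        rw [e1, e2] at h1
        have h4 := ih X hX (j - 1) (by omega) (by omega) (by omega)
        rw [add_comm (δ X (dg C X) ((X.dim : ℤ) + 1 - (j - 1))), add_add_add_comm, h4,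
          add_zero] at h1
        exact h1
    intro X hX j hj hj' hs
    rcases Nat.lt_or_ge (2 * j - (X.dim + 1)).natAbs (s + 1) with h | h
    · exact ih X hX j hj hj' (by omega)
    · rcases lt_or_ge (X.dim + 1 : ℤ) (2 * j) with h1 | h1
      · exact key X hX j hj hj' (by omega)
      · have h2 := key X hX ((X.dim : ℤ) + 1 - j) hj' (by omega) (by omega)
        have e4 : (X.dim : ℤ) + 1 - (X.dim + 1 - j) = j := by ring
        rw [e4, add_comm] at h2
        exact h2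

/-- The averaged formula follows from the middle cases. -/
theorem sy_base (hX : 𝓢 X) : Sy fn δ N X (dg C X) := fun j hj hj' =>
  ⟨base_fn' hδ hL hS hmid _ X hX j hj hj' rfl, fun hc => (hmid X hX j hj (by omega)).2,
    base_δ' hδ hL hS hmid _ X hX j hj hj' le_rfl⟩

end base

/-! ### The middle parts of products -/

/-- The averaged formula for `(X, q)` and all the products `(X × W, q ⊗ Δ)`. -/
def Ag (C : TheoryData.{u, v, 0} 𝒱 ℚ) {K : Type w} [Field K] (H : WeilTheoryData.{u, v, w} C K)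
    (fn : ∀ X : 𝒱.Obj, C.A (X.prod X) → ℤ → Prop) {A : Type*} [AddCommGroup A]
    (δ : ∀ X : 𝒱.Obj, C.A (X.prod X) → ℤ → A) (N : ℤ) (X : 𝒱.Obj) (q : C.A (X.prod X)) : Prop :=
  Sy fn δ N X q ∧ ∀ W, IsProd C H W → Sy fn δ N (X.prod W) (tens C q (dg C W))

section AG

omit hC hH hδ in
lemma ag_of_prod' (h : ∀ W, IsProd C H W → Sy fn δ N W (dg C W)) [IsChowProj C]
    (hX : IsProd C H X) : Ag C H fn δ N X (dg C X) := by
  refine ⟨h X hX, fun W hW => ?_⟩
  rw [tens_dg]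
  exact h _ (IsProd.prod X W hX hW)

lemma ag_var' {f : X ⟶ Y} {g : Y ⟶ X} (h1 : f ≫ g = 𝟙 X) (h2 : g ≫ f = 𝟙 Y) (hd : X.dim = Y.dim)
    {p : C.A (Y.prod Y)} (hp : Pr p) (h : Ag C H fn δ N Y p) :
    Ag C H fn δ N X (C.pull (prodMap f f) p) := by
  refine ⟨sy_var hδ h1 h2 hd hp h.1, fun W hW => ?_⟩
  have h3 := sy_var (f := prodMap f (𝟙 W)) (g := prodMap g (𝟙 W)) hδ
    (by rw [prodMap_comp, h1, Category.comp_id, prodMap_id])
    (by rw [prodMap_comp, h2, Category.comp_id, prodMap_id])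
    (by rw [dim_prod, dim_prod, hd]) (pr_tens hp (pr_dg W)) (h.2 W hW)
  rw [pull_prodMap_tens, prodMap_id, C.pull_id] at h3
  exact h3

lemma ag_step' {b : C.A (B.prod B)} (hb : IsMiddle C H B b) {q : C.A (X.prod X)} (hq : Pr q)
    (h : Ag C H fn δ N X q) : Ag C H fn δ N (X.prod B) (tens C q b) := by
  have hB : IsProd C H B := IsProd.base B b hb
  obtain ⟨m, a, a', t, hm⟩ := exists_mid hb
  refine ⟨sy_step hδ hm hq (h.2 B hB) h.1, fun W hW => ?_⟩
  have h1 : Sy fn δ N ((X.prod W).prod B) (tens C (tens C q (dg C W)) (dg C B)) := by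
    have h2 := sy_var (f := aI X W B) (g := aJ X W B) hδ aI_aJ aJ_aI
      (by simp only [dim_prod]; omega) (pr_tens hq (pr_dg (W.prod B)))
      (h.2 (W.prod B) (IsProd.prod W B hW hB))
    rw [← tens_dg, pull_aI_tens] at h2
    exact h2
  have h3 := sy_step hδ hm (pr_tens hq (pr_dg W)) h1 (h.2 W hW)
  have h4 := sy_var (f := ex X B W) (g := ex X W B) hδ (ex_ex X B W) (ex_ex X W B)
    (by simp only [dim_prod]; omega) (pr_tens (pr_tens hq (pr_dg W)) (mid_pr hm)) h3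
  rw [pull_ex_tens] at h4
  exact h4

omit hδ in
lemma prim_pr {p : C.A (P.prod P)} (hp : IsPrim C H P p) : Pr p := by
  induction hp with
  | base B b h =>
    obtain ⟨m, a, a', t, hm⟩ := exists_mid h
    exact mid_pr hm
  | prod P P' p p' _ _ ih ih' => exact pr_tens ih ih'

lemma ag_prim' {p : C.A (P.prod P)} (hp : IsPrim C H P p) : ∀ (X : 𝒱.Obj) (q : C.A (X.prod X)),
    Pr q → Ag C H fn δ N X q → Ag C H fn δ N (X.prod P) (tens C q p) := by
  induction hp with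
  | base B b h => exact fun X q hq hA => ag_step' hδ h hq hA
  | prod P P' p p' hp hp' ih ih' =>
    intro X q hq hA
    have h1 := ih' (X.prod P) (tens C q p) (pr_tens hq (prim_pr hp)) (ih X q hq hA)
    have h2 := ag_var' (f := aJ X P P') (g := aI X P P') hδ aJ_aI aI_aJ
      (by simp only [dim_prod]; omega) (pr_tens (pr_tens hq (prim_pr hp)) (prim_pr hp')) h1
    have h3 : C.pull (prodMap (aJ X P P') (aJ X P P')) (tens C (tens C q p) p') =
        tens C q (tens C p p') := by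
      rw [← pull_aI_tens q p p', ← C.pull_comp, prodMap_comp, aJ_aI, prodMap_id, C.pull_id]
    rw [h3] at h2
    exact h2

lemma ag_of_prim' (h : ∀ W, IsProd C H W → Sy fn δ N W (dg C W)) {p : C.A (P.prod P)}
    (hp : IsPrim C H P p) : Ag C H fn δ N P p := by
  induction hp with
  | base B b hb =>
    have hB : IsProd C H B := IsProd.base B b hb
    obtain ⟨m, a, a', t, hm⟩ := exists_mid hb
    refine ⟨fun j hj hj' => ?_, fun W hW => ?_⟩
    · obtain ⟨h1, h2, h4⟩ := h B hB j hj hj'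
      obtain ⟨h3, -, -⟩ := h B hB ((B.dim : ℤ) + 1 - j) hj' (by linarith)
      rw [δ_mid' hδ hm h1] at h2
      rw [δ_mid' hδ hm h1, δ_mid' hδ hm h3] at h4
      exact ⟨(fn_mid' hδ.isFn hm j).1 h1, h2, h4⟩
    · have h1 := (ag_step' hδ hb (pr_dg W) (ag_of_prod' h hW)).1
      have h2 := sy_var (f := sw B W) (g := sw W B) hδ sw_sw sw_sw
        (by simp only [dim_prod]; omega) (pr_tens (pr_dg W) (mid_pr hm)) h1
      rw [pull_sw_tens] at h2
      exact h2
  | prod P P' p p' hp hp' ih _ => exact ag_prim' hδ hp' P p (prim_pr hp) ih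

end AG


end Pool.Agent.Q187.HT
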