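import Pool.Agent.Q187.HT.Abs

/-!
# From the middle cases to all codimensions, for invariants defined under a condition
-/

open CategoryTheory AlgebraicGeometry

universe u v w

namespace Pool.Agent.Q187.HT

open Pool.Agent.H914 Pool.Agent.H914.VarClass Pool.Agent.H914.VarClass.Obj Pool.Agent.W492.BB
  Pool.Agent.W550.Corr Pool.Agent.TH133 Pool.Agent.Y148.BB Pool.Agent.Q187.AJ Pool.Agent.Q187.RK

set_option linter.unusedSectionVars false
set_option linter.unusedVariables false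

variable {k : Type u} [Field k] {𝒱 : VarClass k}

variable {C : TheoryData.{u, v, 0} 𝒱 ℚ} [hC : IsChowProj C] {K : Type w} [Field K]
  {H : WeilTheoryData.{u, v, w} C K} [hH : IsWeilProj H] {X Y Z W B P M L : 𝒱.Obj}
  {A : Type*} [AddCommGroup A] {δ : ∀ X : 𝒱.Obj, C.A (X.prod X) → ℤ → A}
  {fn : ∀ X : 𝒱.Obj, C.A (X.prod X) → ℤ → Prop}

include hC hH

lemma mid_tp {b : C.A (B.prod B)} {κ : Type} [Fintype κ] [DecidableEq κ] {a a' : κ ⊕ κ → C.A B}
    {t : κ ⊕ κ → ℕ} (h : Mid H B b a a' t) : tp C b = b := by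
  have h1 : tp C (∑ i, C.ext (a i) (a' i)) = ∑ i, C.ext (a i) (a' i) := by
    rw [tp_sum, Fintype.sum_sum_type, Fintype.sum_sum_type, add_comm]
    congr 1
    · refine Finset.sum_congr rfl fun s _ => ?_
      rw [tp_ext, (h.dual s).1, (h.dual s).2]
    · refine Finset.sum_congr rfl fun s _ => ?_
      rw [tp_ext, (h.dual s).1, (h.dual s).2]
  have h2 : b = dg C B - ∑ i, C.ext (a i) (a' i) := eq_sub_of_add_eq h.sum
  have h3 := tp_sub C (dg C B) (∑ i, C.ext (a i) (a' i))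
  rw [h1, tp_dg, ← h2] at h3
  exact h3

lemma prim_tp {p : C.A (P.prod P)} (hp : IsPrim C H P p) : tp C p = p := by
  induction hp with
  | base B b h =>
    obtain ⟨m, a, a', t, hm⟩ := exists_mid h
    exact mid_tp hm
  | prod P P' p p' _ _ ih ih' =>
    change tp C (tens C p p') = tens C p p'
    rw [tp_tens, ih, ih']

lemma prim_bot2 {p : C.A (P.prod P)} (hp : IsPrim C H P p) {j : ℤ} (h1 : homTriv C H p j = ⊥)
    (h2 : homTriv C H p (P.dim + 1 - j) = ⊥) : Bot2 H p j := by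
  refine ⟨h1, ?_⟩
  rw [prim_tp hp]
  exact h2

omit hC hH in
/-- The formula for the products of middle parts: no homologically trivial cycles, except in
codimension `(dim P + 1) / 2`. -/
def PF (C : TheoryData.{u, v, 0} 𝒱 ℚ) {K : Type w} [Field K] (H : WeilTheoryData.{u, v, w} C K)
    (fn : ∀ X : 𝒱.Obj, C.A (X.prod X) → ℤ → Prop) {A : Type*} [AddCommGroup A]
    (δ : ∀ X : 𝒱.Obj, C.A (X.prod X) → ℤ → A) (N : ℤ) : Prop :=
  ∀ (P : 𝒱.Obj) (p : C.A (P.prod P)), IsPrim C H P p → ∀ j : ℤ, j ≤ N → (P.dim : ℤ) + 1 - j ≤ N →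
    (2 * j ≠ P.dim + 1 → homTriv C H p j = ⊥) ∧ (2 * j = P.dim + 1 → fn P p j ∧ δ P p j = 0)

variable (hδ : IsDef H fn δ)
include hδ

/-- The averaged formula and the vanishing outside the centre. -/
lemma pf_of_sy {N : ℤ} (h0 : ∀ (P : 𝒱.Obj) (p : C.A (P.prod P)), IsPrim C H P p → ∀ j : ℤ, j ≤ N →
      (P.dim : ℤ) + 1 - j ≤ N → 2 * j ≠ P.dim + 1 → homTriv C H p j = ⊥)
    (h : ∀ W, IsProd C H W → Sy fn δ N W (dg C W)) : PF C H fn δ N := by
  intro P p hp j hj hj'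
  obtain ⟨h1, h2, h3⟩ := (ag_of_prim' hδ h hp).1 j hj hj'
  exact ⟨h0 P p hp j hj hj', fun heq => ⟨h1, h2 heq⟩⟩

omit hC hH hδ in
/-- The full formula for `(X, q)`. -/
def Fu (fn : ∀ X : 𝒱.Obj, C.A (X.prod X) → ℤ → Prop) {A : Type*} [AddCommGroup A]
    (δ : ∀ X : 𝒱.Obj, C.A (X.prod X) → ℤ → A) (X : 𝒱.Obj) (q : C.A (X.prod X)) : Prop :=
  ∀ j : ℤ, fn X q j ∧ δ X q j = 0

lemma fu_of_pf {N : ℤ} (h : PF C H fn δ N) {p : C.A (P.prod P)} (hp : IsPrim C H P p)
    (hd : (P.dim : ℤ) ≤ N) : Fu fn δ P p := by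
  intro j
  have key : ∀ (hb : Bot2 H p j) (hk : Kills H p (2 * j - 1)), fn P p j ∧ δ P p j = 0 :=
    fun hb hk => ⟨hδ.isFn.zero P p j (prim_pr hp) hb, hδ.zero P p j (prim_pr hp) hk hb⟩
  by_cases hj : j ≤ 0 ∨ (P.dim : ℤ) < j
  · exact key (prim_bot2 hp (homTriv_out p hj) (homTriv_out p (by omega))) (kills_out hj)
  · push Not at hj
    by_cases hne : 2 * j = P.dim + 1
    · exact (h P p hp j (by omega) (by omega)).2 hne
    · exact key (prim_bot2 hp ((h P p hp j (by omega) (by omega)).1 hne)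
        ((h P p hp ((P.dim : ℤ) + 1 - j) (by omega) (by omega)).1 (by omega)))
        (prim_kills hp _ (by omega))

lemma full_var' {f : X ⟶ Y} {g : Y ⟶ X} (h1 : f ≫ g = 𝟙 X) (h2 : g ≫ f = 𝟙 Y)
    (hd : X.dim = Y.dim) {p : C.A (Y.prod Y)} (hp : Pr p) (h : Fu fn δ Y p) :
    Fu fn δ X (C.pull (prodMap f f) p) := by
  intro j
  rw [fn_var' hδ.isFn h1 h2 hd hp, δ_var' hδ h1 h2 hd hp]
  exact h j

lemma full_add' {b : C.A (B.prod B)} (hb : IsMiddle C H B b) {q : C.A (X.prod X)} (hq : Pr q)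
    (h1 : Fu fn δ (X.prod B) (tens C q b)) (h2 : Fu fn δ X q) :
    Fu fn δ (X.prod B) (tens C q (dg C B)) := by
  obtain ⟨m, a, a', t, hm⟩ := exists_mid hb
  intro j
  have h3 : fn (X.prod B) (tens C q (dg C B)) j :=
    (fn_split' hδ.isFn hm hq j).2 ⟨(h1 j).1, fun i => (h2 _).1⟩
  refine ⟨h3, ?_⟩
  rw [δ_split' hδ hm hq h3, (h1 j).2, Finset.sum_eq_zero fun i _ => (h2 _).2, add_zero]

/-- The full formula for `(X, q)` and its products with middle parts, in dimensions at most `d`. -/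
def Gc (C : TheoryData.{u, v, 0} 𝒱 ℚ) {K : Type w} [Field K] (H : WeilTheoryData.{u, v, w} C K)
    (fn : ∀ X : 𝒱.Obj, C.A (X.prod X) → ℤ → Prop) {A : Type*} [AddCommGroup A]
    (δ : ∀ X : 𝒱.Obj, C.A (X.prod X) → ℤ → A) (d : ℤ) (X : 𝒱.Obj) (q : C.A (X.prod X)) : Prop :=
  ((X.dim : ℤ) ≤ d → Fu fn δ X q) ∧ ∀ (P : 𝒱.Obj) (p : C.A (P.prod P)), IsPrim C H P p →
    (X.dim : ℤ) + P.dim ≤ d → Fu fn δ (X.prod P) (tens C q p)

lemma gc_var' {f : X ⟶ Y} {g : Y ⟶ X} (h1 : f ≫ g = 𝟙 X) (h2 : g ≫ f = 𝟙 Y) (hd : X.dim = Y.dim)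
    {d : ℤ} {p : C.A (Y.prod Y)} (hp : Pr p) (h : Gc C H fn δ d Y p) :
    Gc C H fn δ d X (C.pull (prodMap f f) p) := by
  refine ⟨fun h3 => full_var' hδ h1 h2 hd hp (h.1 (by rw [← hd]; exact h3)), fun P r hr h3 => ?_⟩
  have h4 := full_var' (f := prodMap f (𝟙 P)) (g := prodMap g (𝟙 P)) hδ
    (by rw [prodMap_comp, h1, Category.comp_id, prodMap_id])
    (by rw [prodMap_comp, h2, Category.comp_id, prodMap_id])
    (by rw [dim_prod, dim_prod, hd]) (pr_tens hp (prim_pr hr)) (h.2 P r hr (by rw [← hd]; exact h3))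
  rw [pull_prodMap_tens, prodMap_id, C.pull_id] at h4
  exact h4

lemma gc_base' {d : ℤ} (h : ∀ (P : 𝒱.Obj) (p : C.A (P.prod P)), IsPrim C H P p →
    (P.dim : ℤ) ≤ d → Fu fn δ P p) {b : C.A (B.prod B)} (hb : IsMiddle C H B b) :
    Gc C H fn δ d B (dg C B) := by
  obtain ⟨m, a, a', t, hm⟩ := exists_mid hb
  refine ⟨fun hd j => ?_, fun P p hp hd => ?_⟩
  · obtain ⟨h1, h2⟩ := h B b (IsPrim.base B b hb) hd j
    have h3 := (fn_mid' hδ.isFn hm j).2 h1
    exact ⟨h3, by rw [δ_mid' hδ hm h3, h2]⟩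
  · have h1 : Fu fn δ (P.prod B) (tens C p (dg C B)) :=
      full_add' hδ hb (prim_pr hp)
        (h _ _ (IsPrim.prod P B p b hp (IsPrim.base B b hb)) (by rw [dim_prod]; push_cast; omega))
        (h P p hp (by omega))
    have h2 := full_var' (f := sw B P) (g := sw P B) hδ sw_sw sw_sw
      (by simp only [dim_prod]; omega) (pr_tens (prim_pr hp) (pr_dg B)) h1
    rw [pull_sw_tens] at h2
    exact h2

lemma gc_step' {d : ℤ} (hW : IsProd C H W) : ∀ (X : 𝒱.Obj) (q : C.A (X.prod X)), Pr q →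
    Gc C H fn δ d X q → Gc C H fn δ d (X.prod W) (tens C q (dg C W)) := by
  induction hW with
  | base B b hb =>
    intro X q hq hG
    obtain ⟨m, a, a', t, hm⟩ := exists_mid hb
    refine ⟨fun hd => full_add' hδ hb hq (hG.2 B b (IsPrim.base B b hb) ?_) (hG.1 ?_),
      fun P p hp hd => ?_⟩
    · rw [dim_prod] at hd; push_cast at hd; exact hd
    · rw [dim_prod] at hd; push_cast at hd; omega
    · rw [dim_prod] at hd
      push_cast at hd
      have h1 : Fu fn δ ((X.prod P).prod B) (tens C (tens C q p) b) := by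
        have h2 := full_var' (f := aI X P B) (g := aJ X P B) hδ aI_aJ aJ_aI
          (by simp only [dim_prod]; omega) (pr_tens hq (pr_tens (prim_pr hp) (mid_pr hm)))
          (hG.2 (P.prod B) (tens C p b) (IsPrim.prod P B p b hp (IsPrim.base B b hb))
            (by rw [dim_prod]; push_cast; omega))
        rw [pull_aI_tens] at h2
        exact h2
      have h3 := full_add' hδ hb (pr_tens hq (prim_pr hp)) h1 (hG.2 P p hp (by omega))
      have h4 := full_var' (f := ex X B P) (g := ex X P B) hδ (ex_ex X B P) (ex_ex X P B)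
        (by simp only [dim_prod]; omega) (pr_tens (pr_tens hq (prim_pr hp)) (pr_dg B)) h3
      rw [pull_ex_tens] at h4
      exact h4
  | prod W W' _ _ ih ih' =>
    intro X q hq hG
    have h1 := ih' (X.prod W) _ (pr_tens hq (pr_dg W)) (ih X q hq hG)
    have h2 := gc_var' (f := aJ X W W') (g := aI X W W') hδ aJ_aI aI_aJ
      (by simp only [dim_prod]; omega) (pr_tens (pr_tens hq (pr_dg W)) (pr_dg W')) h1
    have h3 : C.pull (prodMap (aJ X W W') (aJ X W W')) (tens C (tens C q (dg C W)) (dg C W')) =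
        tens C q (dg C (W.prod W')) := by
      rw [← pull_aI_tens q (dg C W) (dg C W'), ← C.pull_comp, prodMap_comp, aJ_aI, prodMap_id,
        C.pull_id, tens_dg]
    rw [h3] at h2
    exact h2

lemma gc_prod' {d : ℤ} (h : ∀ (P : 𝒱.Obj) (p : C.A (P.prod P)), IsPrim C H P p →
    (P.dim : ℤ) ≤ d → Fu fn δ P p) (hX : IsProd C H X) : Gc C H fn δ d X (dg C X) := by
  induction hX with
  | base B b hb => exact gc_base' hδ h hb
  | prod W W' hW hW' ih _ =>
    have h1 := gc_step' hδ hW' W (dg C W) (pr_dg W) ih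
    rw [tens_dg] at h1
    exact h1

/-- From the middle parts to the varieties. -/
theorem full_of_prim' {N : ℤ} (h : PF C H fn δ N) (hX : IsProd C H X) (hd : (X.dim : ℤ) ≤ N) :
    Fu fn δ X (dg C X) :=
  (gc_prod' hδ (fun P p hp hP => fu_of_pf hδ h hp hP) hX).1 hd

/-- The middle cases in codimensions at most `N` imply the averaged formula. -/
theorem sym_of_middle' {o : C.A L} (hL : IsLine C L o) {N : ℤ}
    (h : ∀ X, IsProd C H X → ∀ i : ℤ, i ≤ N → (X.dim : ℤ) = 2 * i - 1 →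
      fn X (dg C X) i ∧ δ X (dg C X) i = 0) (hX : IsProd C H X) : Sy fn δ N X (dg C X) := by
  have hS : ∀ X, IsProd C H X → IsProd C H (X.prod L) := fun X hX =>
    IsProd.prod X L hX (IsProd.base L 0 (isMiddle_line hL))
  exact sy_base hδ hL hS h hX


end Pool.Agent.Q187.HT
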