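import Pool.Agent.Q187.RK.Defs

/-!
# Heights and leading coefficients: definitions
-/

open CategoryTheory AlgebraicGeometry

universe u v w

namespace Pool.Agent.Q187.HTS

open Pool.Agent.H914 Pool.Agent.H914.VarClass Pool.Agent.H914.VarClass.Obj Pool.Agent.W492.BB
  Pool.Agent.TH133 Pool.Agent.Q187.AJS Pool.Agent.Q187.RK

/-- `a ≈ b`: the real number `a` is a nonzero rational multiple of `b`. -/
def Sim (a b : ℝ) : Prop := ∃ q : ℚ, q ≠ 0 ∧ a = q * b

/-- `b` is a `ℚ`-basis of `S`. -/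
def IsBas {A : Type*} [AddCommGroup A] [Module ℚ A] {r : ℕ} (S : Submodule ℚ A) (b : Fin r → A) :
    Prop := LinearIndependent ℚ b ∧ Submodule.span ℚ (Set.range b) = S

/-- The spaces `S` and `T` have bases with `r` elements in which the matrix of `B` has the
determinant `x`. -/
def HasDet {A : Type*} [AddCommGroup A] [Module ℚ A] (S T : Submodule ℚ A) (B : A → A → ℝ) (r : ℕ)
    (x : ℝ) : Prop :=
  ∃ b b' : Fin r → A, IsBas S b ∧ IsBas T b' ∧ (Matrix.of fun i k => B (b i) (b' k)).det = x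

variable {k : Type u} [Field k] {𝒱 : VarClass k} (C : TheoryData.{u, v, 0} 𝒱 ℚ) {X : 𝒱.Obj}
  {K : Type w} [Field K] (H : WeilTheoryData.{u, v, w} C K)

/-- The formal properties of the function `l X p j = L^*(p_* H^(2j-1)(X), j) / det Π` on motives over
`ℚ`, the quotient of the leading coefficient of the L-function at `s = j` by the determinant of the
period matrix in `ℚ`-bases: up to nonzero rational multiples, it is multiplicative, invariant under
isomorphisms and Tate twists, and `1` if `p` acts as zero on `H^(2j-1)(X)`. -/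
structure IsLeading (l : ∀ X : 𝒱.Obj, C.A (X.prod X) → ℤ → ℝ) : Prop where
  ne_zero : ∀ (X : 𝒱.Obj) (p : C.A (X.prod X)) (j : ℤ), l X p j ≠ 0
  mul : ∀ (X : 𝒱.Obj) (p q : C.A (X.prod X)) (j : ℤ), IsProjector C p → IsProjector C q →
    comp C p q = 0 → comp C q p = 0 → Sim (l X (p + q) j) (l X p j * l X q j)
  iso : ∀ (X Y : 𝒱.Obj) (p : C.A (X.prod X)) (q : C.A (Y.prod Y)) (c j : ℤ) (f : C.A (X.prod Y))
    (g : C.A (Y.prod X)), IsProjector C p → IsProjector C q → C.Deg (X.dim + c) f →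
    C.Deg (Y.dim - c) g → comp C f g = p → comp C g f = q → Sim (l X p j) (l Y q (j + c))
  kills : ∀ (X : 𝒱.Obj) (p : C.A (X.prod X)) (j : ℤ), IsProjector C p → Kills H p (2 * j - 1) →
    Sim (l X p j) 1

/-- A family of bilinear pairings with the adjunction property of the height pairing: for a
correspondence `Γ` from `X` to `Y` and homologically trivial cycles `x` on `X` and `y` on `Y` with
`codim Γ_* x + codim y = dim Y + 1` one has `⟨Γ_* x, y⟩ = ⟨x, (Γ^t)_* y⟩`. -/
structure IsHeight (h : ∀ X : 𝒱.Obj, C.A X → C.A X → ℝ) : Prop where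
  left : ∀ (X : 𝒱.Obj) (a b z : C.A X) (r : ℚ), h X (a + r • b) z = h X a z + r * h X b z
  right : ∀ (X : 𝒱.Obj) (a b z : C.A X) (r : ℚ), h X z (a + r • b) = h X z a + r * h X z b
  adj : ∀ (X Y : 𝒱.Obj) (c j : ℤ) (Γ : C.A (X.prod Y)) (x : C.A X) (y : C.A Y),
    C.Deg (X.dim + c) Γ → C.Deg j x → Triv C H x → C.Deg (Y.dim + 1 - (j + c)) y → Triv C H y →
    h Y (C.act Γ x) y = h X x (C.act (tp C Γ) y)

/-- The spaces `CH^j(X, p)_0` and `CH^(dim X + 1 - j)(X, p^t)_0` have `ℚ`-bases with `r` elements,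
and the matrix of the height pairing in these bases has the determinant `x`. -/
def Det (h : ∀ X : 𝒱.Obj, C.A X → C.A X → ℝ) (p : C.A (X.prod X)) (j : ℤ) (r : ℕ) (x : ℝ) : Prop :=
  HasDet (homTriv C H p j) (homTriv C H (tp C p) (X.dim + 1 - j)) (h X) r x

/-- The height pairing on `CH^j(X, p)_0 × CH^(dim X + 1 - j)(X, p^t)_0` is non-degenerate: these
spaces are finite-dimensional, and the determinant in `ℚ`-bases is nonzero. -/
def NonDeg (h : ∀ X : 𝒱.Obj, C.A X → C.A X → ℝ) (p : C.A (X.prod X)) (j : ℤ) : Prop :=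
  ∃ (r : ℕ) (x : ℝ), x ≠ 0 ∧ Det C H h p j r x

/-- The conjecture of Beilinson (all four parts) for the motive `(X, p)` in codimension `j`: the
spaces `CH^j(X, p)_0` and `CH^(dim X + 1 - j)(X, p^t)_0` have finite `ℚ`-bases with
`r = e X p j = ord_{s=j} L` elements, and the determinant `x` of the height pairing in these bases
is nonzero and is `L^* / det Π` up to a nonzero rational multiple. -/
def Beilinson (e : ∀ X : 𝒱.Obj, C.A (X.prod X) → ℤ → ℤ) (l : ∀ X : 𝒱.Obj, C.A (X.prod X) → ℤ → ℝ)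
    (h : ∀ X : 𝒱.Obj, C.A X → C.A X → ℝ) (p : C.A (X.prod X)) (j : ℤ) : Prop :=
  ∃ (r : ℕ) (x : ℝ), x ≠ 0 ∧ Det C H h p j r x ∧ (r : ℤ) = e X p j ∧ Sim (l X p j) x

end Pool.Agent.Q187.HTS
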