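import Pool.Agent.Q187.HT.Ht
import Pool.Agent.Q187.HT.HDefs

/-!
# The theorem in terms of the definitions of the statement
-/

open CategoryTheory AlgebraicGeometry

universe u v w

namespace Pool.Agent.Q187.HTS

open Pool.Agent.H914 Pool.Agent.H914.VarClass Pool.Agent.H914.VarClass.Obj Pool.Agent.W492.BB
  Pool.Agent.TH133 Pool.Agent.Q187.RK

lemma sim_iff {a b : ℝˣ} : Sim a b ↔
    (QuotientGroup.mk a : ℝˣ ⧸ HT.ratUnits) = QuotientGroup.mk b := by
  rw [eq_comm, QuotientGroup.eq]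
  constructor
  · rintro ⟨q, hq, h⟩
    refine ⟨Units.mk0 q hq, Units.ext ?_⟩
    change ((q : ℚ) : ℝ) = ((b⁻¹ * a : ℝˣ) : ℝ)
    rw [Units.val_mul, h, mul_left_comm, Units.inv_mul, mul_one]
  · rintro ⟨q, hq⟩
    refine ⟨q, q.ne_zero, ?_⟩
    have h1 : (((q : ℚ) : ℝ)) = ((b⁻¹ * a : ℝˣ) : ℝ) := by rw [← hq]; rfl
    rw [h1, Units.val_mul, mul_comm, ← mul_assoc, Units.mul_inv, one_mul]

section bas

variable {A : Type*} [AddCommGroup A] [Module ℚ A] {r : ℕ}

lemma exists_basis {S : Submodule ℚ A} {b : Fin r → A} (h : IsBas S b) :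
    ∃ c : Module.Basis (Fin r) ℚ S, ∀ i, (c i : A) = b i := by
  obtain ⟨h1, rfl⟩ := h
  exact ⟨Module.Basis.span h1, fun i => by rw [Module.Basis.span_apply h1 i]⟩

lemma isBas_coe {S : Submodule ℚ A} (c : Module.Basis (Fin r) ℚ S) : IsBas S (fun i => (c i : A)) := by
  constructor
  · exact c.linearIndependent.map' S.subtype (Submodule.ker_subtype S)
  · have h : (Set.range fun i => (c i : A)) = S.subtype '' Set.range c := by
      rw [← Set.range_comp]
      rfl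
    rw [h, ← Submodule.map_span, c.span_eq, Submodule.map_subtype_top]

end bas

set_option linter.unusedSectionVars false

variable {k : Type u} [Field k] {𝒱 : VarClass k}

variable {C : TheoryData.{u, v, 0} 𝒱 ℚ} [hC : IsChowProj C] {K : Type w} [Field K]
  {H : WeilTheoryData.{u, v, w} C K} [hH : IsWeilProj H] {X : 𝒱.Obj}
  {e : ∀ X : 𝒱.Obj, C.A (X.prod X) → ℤ → ℤ}
  {l : ∀ X : 𝒱.Obj, C.A (X.prod X) → ℤ → ℝ}
  {h : ∀ X : 𝒱.Obj, C.A X → C.A X → ℝ}

/-- The bilinear map. -/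
noncomputable def hlin (hh : IsHeight C H h) (X : 𝒱.Obj) : C.A X →ₗ[ℚ] C.A X →ₗ[ℚ] ℝ :=
  LinearMap.mk₂ ℚ (h X)
    (fun a b z => by have := hh.left X a b z 1; simpa using this)
    (fun r a z => by
      have h0 : h X 0 z = 0 := by
        have := hh.left X 0 0 z 1
        simpa using this
      have := hh.left X 0 a z r
      rw [zero_add, h0, zero_add] at this
      rw [this, Rat.smul_def])
    (fun z a b => by have := hh.right X a b z 1; simpa using this)
    (fun r z a => by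
      have h0 : h X z 0 = 0 := by
        have := hh.right X 0 0 z 1
        simpa using this
      have := hh.right X 0 a z r
      rw [zero_add, h0, zero_add] at this
      rw [this, Rat.smul_def])

lemma det_iff (hh : IsHeight C H h) {p : C.A (X.prod X)} {j : ℤ} {r : ℕ} {y : ℝˣ} :
    (∃ x : ℝ, x ≠ 0 ∧ Det C H h p j r x ∧ Sim (y : ℝ) x) ↔
      HT.IsDet (HT.pairing C H (hlin hh) p j) r (QuotientGroup.mk y) := by
  constructor
  · rintro ⟨x, hx, ⟨b, b', hb, hb', hdet⟩, hs⟩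
    obtain ⟨c, hc⟩ := exists_basis hb
    obtain ⟨c', hc'⟩ := exists_basis hb'
    refine ⟨c, c', Units.mk0 x hx, ?_, ?_⟩
    · rw [Units.val_mk0, ← hdet]
      congr 1
      ext i k
      change h X (b i) (b' k) = h X (c i) (c' k)
      rw [hc, hc']
    · exact (sim_iff.1 hs).symm
  · rintro ⟨c, c', x, hx, hu⟩
    exact ⟨x, x.ne_zero, ⟨_, _, isBas_coe c, isBas_coe c', hx.symm⟩, sim_iff.2 hu.symm⟩

lemma nonDeg_iff (hh : IsHeight C H h) {p : C.A (X.prod X)} {j : ℤ} :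
    NonDeg C H h p j ↔ HT.NonDeg C H (hlin hh) p j := by
  constructor
  · rintro ⟨r, x, hx, hd⟩
    exact ⟨r, _, (det_iff hh (y := Units.mk0 x hx)).1 ⟨x, hx, hd, 1, one_ne_zero, by simp⟩⟩
  · rintro ⟨r, u, hd⟩
    obtain ⟨y, rfl⟩ := QuotientGroup.mk_surjective u
    obtain ⟨x, hx, hd', -⟩ := (det_iff hh).2 hd
    exact ⟨r, x, hx, hd'⟩

/-- The class of the leading coefficient. -/
noncomputable def lq (hl : IsLeading C H l) (X : 𝒱.Obj) (p : C.A (X.prod X)) (j : ℤ) :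
    ℝˣ ⧸ HT.ratUnits := QuotientGroup.mk (Units.mk0 (l X p j) (hl.ne_zero X p j))

lemma isLeading_lq (hl : IsLeading C H l) : HT.IsLeading C H (lq hl) where
  mul X p q j hp hq h1 h2 := by
    have h3 := hl.mul X p q j hp hq h1 h2
    have h4 := sim_iff (a := Units.mk0 _ (hl.ne_zero X (p + q) j))
      (b := Units.mk0 _ (hl.ne_zero X p j) * Units.mk0 _ (hl.ne_zero X q j))
    exact h4.1 h3
  iso X Y p q c j f g hp hq hf hg h1 h2 := by
    have h3 := hl.iso X Y p q c j f g hp hq hf hg h1 h2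
    have h4 := sim_iff (a := Units.mk0 _ (hl.ne_zero X p j))
      (b := Units.mk0 _ (hl.ne_zero Y q (j + c)))
    exact h4.1 h3
  kills X p j hp hk := by
    have h3 := hl.kills X p j hp hk
    have h4 := sim_iff (a := Units.mk0 _ (hl.ne_zero X p j)) (b := 1)
    exact h4.1 (by rw [Units.val_one]; exact h3)

lemma isHeight_hlin (hh : IsHeight C H h) : HT.IsHeight C H (hlin hh) := hh.adj

lemma beilinson_iff (hl : IsLeading C H l) (hh : IsHeight C H h) {p : C.A (X.prod X)} {j : ℤ} :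
    Beilinson C H e l h p j ↔ HT.Beilinson C H e (lq hl) (hlin hh) p j := by
  constructor
  · rintro ⟨r, x, hx, hd, hr, hs⟩
    exact ⟨r, hr, (det_iff hh).1 ⟨x, hx, hd, hs⟩⟩
  · rintro ⟨r, hr, hd⟩
    obtain ⟨x, hx, hd', hs⟩ := (det_iff hh).2 hd
    exact ⟨r, x, hx, hd', hr, hs⟩

include hC hH

theorem beilinson_middle (he : IsOrder C H e) (hl : IsLeading C H l) (hh : IsHeight C H h)
    (hL : ∃ (L : 𝒱.Obj) (o : C.A L), L.dim = 1 ∧ AJS.DegreeOne C o ∧ AJS.odd C o = 0) :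
    (∀ N : ℕ, (∀ (X : 𝒱.Obj) (i : ℕ), IsProd C H X → X.dim + 1 = 2 * i → i ≤ N →
        Beilinson C H e l h (AJS.diag C X) i) →
      ∀ (X : 𝒱.Obj) (j : ℕ), IsProd C H X → X.dim ≤ N →
        Beilinson C H e l h (AJS.diag C X) j) ∧
    List.TFAE [
      ∀ (X : 𝒱.Obj) (j : ℕ), IsProd C H X → Beilinson C H e l h (AJS.diag C X) j,
      ∀ (X : 𝒱.Obj) (i : ℕ), IsProd C H X → X.dim + 1 = 2 * i →
        Beilinson C H e l h (AJS.diag C X) i,
      ∀ (P : 𝒱.Obj) (p : C.A (P.prod P)) (j : ℕ), IsPrim C H P p →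
        Beilinson C H e l h p j] ∧
    ((∀ (X : 𝒱.Obj) (j : ℕ), IsProd C H X → Beilinson C H e l h (AJS.diag C X) j) →
      ∀ (X : 𝒱.Obj) (p : C.A (X.prod X)) (j : ℕ), IsProd C H X → IsProjector C p →
        NonDeg C H h p j) := by
  simp only [beilinson_iff hl hh, nonDeg_iff hh]
  exact HT.beilinson_middle he (isLeading_lq hl) (isHeight_hlin hh) hL

end Pool.Agent.Q187.HTS
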