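import Mathlib

/-!
# Determinants of real-valued pairings of rational vector spaces
-/

namespace Pool.Agent.Q187.HT

open Matrix Module

set_option linter.unusedSectionVars false

/-- The rational multiples: the image of `ℚ*` in `ℝ*`. -/
noncomputable def ratUnits : Subgroup ℝˣ := (Units.map (algebraMap ℚ ℝ : ℚ →* ℝ)).range

variable {V W V' W' : Type*} [AddCommGroup V] [Module ℚ V] [AddCommGroup W] [Module ℚ W]
  [AddCommGroup V'] [Module ℚ V'] [AddCommGroup W'] [Module ℚ W']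

/-- The pairing `B` is perfect over `ℝ` on spaces of dimension `r`, and its determinant in `ℚ`-bases
is in the class `u` of `ℝ* / ℚ*`. -/
def IsDet (B : V →ₗ[ℚ] W →ₗ[ℚ] ℝ) (r : ℕ) (u : ℝˣ ⧸ ratUnits) : Prop :=
  ∃ (b : Basis (Fin r) ℚ V) (b' : Basis (Fin r) ℚ W) (x : ℝˣ),
    (x : ℝ) = (Matrix.of fun i k => B (b i) (b' k)).det ∧ (QuotientGroup.mk x : ℝˣ ⧸ ratUnits) = u

section change

variable {ι ι' κ κ' : Type*} [Fintype ι] [Fintype ι'] [Fintype κ] [Fintype κ'] [DecidableEq ι]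
  [DecidableEq ι'] [DecidableEq κ] [DecidableEq κ']

/-- The matrix of a pairing. -/
noncomputable def mat (B : V →ₗ[ℚ] W →ₗ[ℚ] ℝ) (b : ι → V) (b' : κ → W) : Matrix ι κ ℝ :=
  Matrix.of fun i k => B (b i) (b' k)

/-- Real matrices from rational ones. -/
noncomputable def toR (M : Matrix ι κ ℚ) : Matrix ι κ ℝ := M.map (algebraMap ℚ ℝ)

omit [Fintype ι] [Fintype κ'] [DecidableEq ι] [DecidableEq κ] [DecidableEq κ'] in
lemma toR_mul (M : Matrix ι κ ℚ) (N : Matrix κ κ' ℚ) : toR (M * N) = toR M * toR N :=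
  Matrix.map_mul

omit [Fintype ι] in
lemma toR_one : toR (1 : Matrix ι ι ℚ) = 1 := by
  rw [toR, Matrix.map_one _ (map_zero _) (map_one _)]

lemma mat_change (B : V →ₗ[ℚ] W →ₗ[ℚ] ℝ) (b : Basis ι ℚ V) (b' : Basis κ ℚ W) (c : ι' → V)
    (c' : κ' → W) :
    mat B c c' = (toR (b.toMatrix c))ᵀ * mat B b b' * toR (b'.toMatrix c') := by
  ext i k
  have h1 : c i = ∑ l : ι, b.toMatrix c l i • b l := (b.sum_toMatrix_smul_self c i).symm
  have h2 : c' k = ∑ l : κ, b'.toMatrix c' l k • b' l := (b'.sum_toMatrix_smul_self c' k).symm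
  change B (c i) (c' k) = _
  rw [h1, h2]
  simp only [map_sum, LinearMap.sum_apply, map_smul, LinearMap.smul_apply, Matrix.mul_apply,
    Matrix.transpose_apply, toR, Matrix.map_apply, mat, Matrix.of_apply, Rat.smul_def,
    eq_ratCast, Finset.mul_sum, Finset.sum_mul]
  refine Finset.sum_congr rfl fun l _ => Finset.sum_congr rfl fun l' _ => ?_
  ring

/-- If the determinant is nonzero for one pair of bases, then the matrix for any pair of bases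
has no left kernel. -/
lemma vecMul_inj (B : V →ₗ[ℚ] W →ₗ[ℚ] ℝ) (b : Basis ι ℚ V) (b' : Basis ι ℚ W)
    (h : (mat B b b').det ≠ 0) (c : Basis ι' ℚ V) (c' : Basis κ' ℚ W) {x : ι' → ℝ}
    (hx : x ᵥ* mat B c c' = 0) : x = 0 := by
  have h1 := mat_change B b b' c c'
  have hT : toR (c.toMatrix b) * toR (b.toMatrix c) = 1 := by
    rw [← toR_mul, Basis.toMatrix_mul_toMatrix_flip, toR_one]
  have hS : toR (b'.toMatrix c') * toR (c'.toMatrix b') = 1 := by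
    rw [← toR_mul, Basis.toMatrix_mul_toMatrix_flip, toR_one]
  have h2 : x ᵥ* (toR (b.toMatrix c))ᵀ = 0 := by
    have h3 : (x ᵥ* (toR (b.toMatrix c))ᵀ) ᵥ* mat B b b' = 0 := by
      have h4 : (x ᵥ* mat B c c') ᵥ* toR (c'.toMatrix b') = 0 := by rw [hx, Matrix.zero_vecMul]
      rw [h1, Matrix.vecMul_vecMul, Matrix.mul_assoc, Matrix.mul_assoc, hS, Matrix.mul_one] at h4
      rw [Matrix.vecMul_vecMul]
      exact h4
    by_contra hne
    exact h (Matrix.exists_vecMul_eq_zero_iff.1 ⟨_, hne, h3⟩)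
  have h5 : (x ᵥ* (toR (b.toMatrix c))ᵀ) ᵥ* (toR (c.toMatrix b))ᵀ = 0 := by
    rw [h2, Matrix.zero_vecMul]
  rw [Matrix.vecMul_vecMul, ← Matrix.transpose_mul, hT, Matrix.transpose_one,
    Matrix.vecMul_one] at h5
  exact h5

/-- The same for the right kernel. -/
lemma mulVec_inj (B : V →ₗ[ℚ] W →ₗ[ℚ] ℝ) (b : Basis ι ℚ V) (b' : Basis ι ℚ W)
    (h : (mat B b b').det ≠ 0) (c : Basis ι' ℚ V) (c' : Basis κ' ℚ W) {x : κ' → ℝ}
    (hx : mat B c c' *ᵥ x = 0) : x = 0 := by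
  refine vecMul_inj B.flip b' b ?_ c' c ?_
  · change (mat B b b')ᵀ.det ≠ 0
    rw [Matrix.det_transpose]
    exact h
  · change x ᵥ* (mat B c c')ᵀ = 0
    rw [Matrix.vecMul_transpose]
    exact hx

end change

/-- The classes in `ℝ* / ℚ*` of the determinants for different bases agree. -/
lemma isDet_unique {B : V →ₗ[ℚ] W →ₗ[ℚ] ℝ} {r r' : ℕ} {u u' : ℝˣ ⧸ ratUnits} (h : IsDet B r u)
    (h' : IsDet B r' u') : r = r' ∧ u = u' := by
  obtain ⟨b, b', x, hx, rfl⟩ := h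
  obtain ⟨c, c', y, hy, rfl⟩ := h'
  have e : r = r' := by
    have h1 := Module.finrank_eq_card_basis b
    have h2 := Module.finrank_eq_card_basis c
    rw [h1, Fintype.card_fin, Fintype.card_fin] at h2
    exact h2
  subst e
  refine ⟨rfl, ?_⟩
  have h1 := mat_change B b b' c c'
  have hT : (b.toMatrix c).det ≠ 0 := by
    have h2 : (b.toMatrix c * c.toMatrix b).det = 1 := by
      rw [Basis.toMatrix_mul_toMatrix_flip, Matrix.det_one]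
    rw [Matrix.det_mul] at h2
    intro h3
    rw [h3, zero_mul] at h2
    exact zero_ne_one h2
  have hS : (b'.toMatrix c').det ≠ 0 := by
    have h2 : (b'.toMatrix c' * c'.toMatrix b').det = 1 := by
      rw [Basis.toMatrix_mul_toMatrix_flip, Matrix.det_one]
    rw [Matrix.det_mul] at h2
    intro h3
    rw [h3, zero_mul] at h2
    exact zero_ne_one h2
  have h2 : (y : ℝ) = algebraMap ℚ ℝ ((b.toMatrix c).det * (b'.toMatrix c').det) * x := by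
    rw [hx, hy]
    change (mat B c c').det = _ * (mat B b b').det
    rw [h1, Matrix.det_mul, Matrix.det_mul, Matrix.det_transpose, toR, toR]
    have e1 : ∀ M : Matrix (Fin r) (Fin r) ℚ,
        (M.map (algebraMap ℚ ℝ)).det = algebraMap ℚ ℝ M.det := fun M =>
      ((algebraMap ℚ ℝ).map_det M).symm
    rw [e1, e1, map_mul]
    ring
  rw [QuotientGroup.eq]
  refine ⟨Units.mk0 _ (mul_ne_zero hT hS), ?_⟩
  apply Units.ext
  change algebraMap ℚ ℝ ((b.toMatrix c).det * (b'.toMatrix c').det) = ((x⁻¹ * y : ℝˣ) : ℝ)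
  rw [Units.val_mul, h2, mul_left_comm, Units.inv_mul, mul_one]

/-- Transport along isomorphisms. -/
lemma isDet_iso {B : V →ₗ[ℚ] W →ₗ[ℚ] ℝ} {B' : V' →ₗ[ℚ] W' →ₗ[ℚ] ℝ} (f : V ≃ₗ[ℚ] V')
    (g : W ≃ₗ[ℚ] W') (hB : ∀ v w, B' (f v) (g w) = B v w) {r : ℕ} {u : ℝˣ ⧸ ratUnits}
    (h : IsDet B r u) : IsDet B' r u := by
  obtain ⟨b, b', x, hx, hu⟩ := h
  refine ⟨b.map f, b'.map g, x, ?_, hu⟩
  rw [hx]
  congr 1
  ext i k
  simp [hB]

lemma isDet_zero [Subsingleton V] [Subsingleton W] (B : V →ₗ[ℚ] W →ₗ[ℚ] ℝ) : IsDet B 0 1 := by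
  refine ⟨Basis.empty V, Basis.empty W, 1, ?_, rfl⟩
  rw [Matrix.det_isEmpty, Units.val_one]

/-- The determinant for bases with any index types. -/
lemma isDet_of_basis {B : V →ₗ[ℚ] W →ₗ[ℚ] ℝ} {ι : Type*} [Fintype ι] [DecidableEq ι]
    (b : Basis ι ℚ V) (b' : Basis ι ℚ W) {x : ℝˣ} (hx : (x : ℝ) = (mat B b b').det) :
    IsDet B (Fintype.card ι) (QuotientGroup.mk x) := by
  let e := Fintype.equivFin ι
  refine ⟨b.reindex e, b'.reindex e, x, ?_, rfl⟩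
  have h1 : (Matrix.of fun i k => B (b.reindex e i) (b'.reindex e k)) =
      Matrix.reindex e e (mat B b b') := by
    ext i k
    simp [mat]
  rw [hx, h1, Matrix.det_reindex_self]

section sum

variable {V₁ V₂ W₁ W₂ : Type*} [AddCommGroup V₁] [Module ℚ V₁] [AddCommGroup V₂] [Module ℚ V₂]
  [AddCommGroup W₁] [Module ℚ W₁] [AddCommGroup W₂] [Module ℚ W₂]
  {B₁ : V₁ →ₗ[ℚ] W₁ →ₗ[ℚ] ℝ} {B₂ : V₂ →ₗ[ℚ] W₂ →ₗ[ℚ] ℝ}
  {B : (V₁ × V₂) →ₗ[ℚ] (W₁ × W₂) →ₗ[ℚ] ℝ}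

lemma mat_prod (hB : ∀ v w, B v w = B₁ v.1 w.1 + B₂ v.2 w.2) {ι₁ ι₂ κ₁ κ₂ : Type*}
    (b₁ : Basis ι₁ ℚ V₁) (b₂ : Basis ι₂ ℚ V₂) (c₁ : Basis κ₁ ℚ W₁) (c₂ : Basis κ₂ ℚ W₂) :
    mat B (b₁.prod b₂) (c₁.prod c₂) = Matrix.fromBlocks (mat B₁ b₁ c₁) 0 0 (mat B₂ b₂ c₂) := by
  ext (i | i) (k | k) <;> simp [mat, hB]

/-- Orthogonal sums. -/
lemma isDet_prod (hB : ∀ v w, B v w = B₁ v.1 w.1 + B₂ v.2 w.2) {r₁ r₂ : ℕ}
    {u₁ u₂ : ℝˣ ⧸ ratUnits} (h₁ : IsDet B₁ r₁ u₁) (h₂ : IsDet B₂ r₂ u₂) :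
    IsDet B (r₁ + r₂) (u₁ * u₂) := by
  obtain ⟨b₁, c₁, x₁, hx₁, rfl⟩ := h₁
  obtain ⟨b₂, c₂, x₂, hx₂, rfl⟩ := h₂
  have h := isDet_of_basis (B := B) (b₁.prod b₂) (c₁.prod c₂) (x := x₁ * x₂) (by
    rw [mat_prod hB, Matrix.det_fromBlocks_zero₂₁, Units.val_mul, hx₁, hx₂]
    rfl)
  rw [Fintype.card_sum, Fintype.card_fin, Fintype.card_fin] at h
  exact h

/-- A square matrix without left kernel. -/
lemma exists_isDet {B : V →ₗ[ℚ] W →ₗ[ℚ] ℝ} [Module.Finite ℚ V] [Module.Finite ℚ W]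
    (hl : ∀ (r s : ℕ) (b : Basis (Fin r) ℚ V) (c : Basis (Fin s) ℚ W) (x : Fin r → ℝ),
      x ᵥ* mat B b c = 0 → x = 0)
    (hr : ∀ (r s : ℕ) (b : Basis (Fin r) ℚ V) (c : Basis (Fin s) ℚ W) (x : Fin s → ℝ),
      mat B b c *ᵥ x = 0 → x = 0) : ∃ r u, IsDet B r u := by
  have b := Module.finBasis ℚ V
  have c := Module.finBasis ℚ W
  have h1 := hl _ _ b c
  have h2 := hr _ _ b c
  have e : Module.finrank ℚ V = Module.finrank ℚ W := by
    apply le_antisymm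
    · have h3 := LinearMap.finrank_le_finrank_of_injective
        (f := (mat B b c).vecMulLinear) (by
          rw [← LinearMap.ker_eq_bot, LinearMap.ker_eq_bot']
          exact fun x hx => h1 x hx)
      simpa using h3
    · have h3 := LinearMap.finrank_le_finrank_of_injective
        (f := (mat B b c).mulVecLin) (by
          rw [← LinearMap.ker_eq_bot, LinearMap.ker_eq_bot']
          exact fun x hx => h2 x hx)
      simpa using h3
  have c' := c.reindex (finCongr e.symm)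
  have h4 := hl _ _ b c'
  have h5 : (mat B b c').det ≠ 0 := by
    intro h6
    obtain ⟨x, hx, hx'⟩ := Matrix.exists_vecMul_eq_zero_iff.2 h6
    exact hx (h4 x hx')
  exact ⟨_, _, isDet_of_basis b c' (x := Units.mk0 _ h5) rfl⟩

/-- The summands of a perfect orthogonal sum are perfect. -/
lemma isDet_of_prod (hB : ∀ v w, B v w = B₁ v.1 w.1 + B₂ v.2 w.2) {r : ℕ} {u : ℝˣ ⧸ ratUnits}
    (h : IsDet B r u) : (∃ r₁ u₁, IsDet B₁ r₁ u₁) ∧ ∃ r₂ u₂, IsDet B₂ r₂ u₂ := by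
  obtain ⟨b, c, x, hx, -⟩ := h
  have hdet : (mat B b c).det ≠ 0 := by
    change (Matrix.of fun i k => B (b i) (c k)).det ≠ 0
    rw [← hx]
    exact x.ne_zero
  have hV : Module.Finite ℚ (V₁ × V₂) := Module.Finite.of_basis b
  have hW : Module.Finite ℚ (W₁ × W₂) := Module.Finite.of_basis c
  have hV₁ : Module.Finite ℚ V₁ := Module.Finite.of_surjective (LinearMap.fst ℚ V₁ V₂)
    LinearMap.fst_surjective
  have hV₂ : Module.Finite ℚ V₂ := Module.Finite.of_surjective (LinearMap.snd ℚ V₁ V₂)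
    LinearMap.snd_surjective
  have hW₁ : Module.Finite ℚ W₁ := Module.Finite.of_surjective (LinearMap.fst ℚ W₁ W₂)
    LinearMap.fst_surjective
  have hW₂ : Module.Finite ℚ W₂ := Module.Finite.of_surjective (LinearMap.snd ℚ W₁ W₂)
    LinearMap.snd_surjective
  have hl : ∀ (r₁ r₂ s₁ s₂ : ℕ) (b₁ : Basis (Fin r₁) ℚ V₁) (b₂ : Basis (Fin r₂) ℚ V₂)
      (c₁ : Basis (Fin s₁) ℚ W₁) (c₂ : Basis (Fin s₂) ℚ W₂) (x₁ : Fin r₁ → ℝ) (x₂ : Fin r₂ → ℝ),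
      x₁ ᵥ* mat B₁ b₁ c₁ = 0 → x₂ ᵥ* mat B₂ b₂ c₂ = 0 → x₁ = 0 ∧ x₂ = 0 := by
    intro r₁ r₂ s₁ s₂ b₁ b₂ c₁ c₂ x₁ x₂ h1 h2
    have h3 := vecMul_inj B b c hdet (b₁.prod b₂) (c₁.prod c₂) (x := Sum.elim x₁ x₂) (by
      rw [mat_prod hB, Matrix.vecMul_fromBlocks]
      ext (i | i) <;> simp [h1, h2])
    refine ⟨funext fun i => ?_, funext fun i => ?_⟩
    · exact congrFun h3 (Sum.inl i)
    · exact congrFun h3 (Sum.inr i)
  have hr : ∀ (r₁ r₂ s₁ s₂ : ℕ) (b₁ : Basis (Fin r₁) ℚ V₁) (b₂ : Basis (Fin r₂) ℚ V₂)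
      (c₁ : Basis (Fin s₁) ℚ W₁) (c₂ : Basis (Fin s₂) ℚ W₂) (x₁ : Fin s₁ → ℝ) (x₂ : Fin s₂ → ℝ),
      mat B₁ b₁ c₁ *ᵥ x₁ = 0 → mat B₂ b₂ c₂ *ᵥ x₂ = 0 → x₁ = 0 ∧ x₂ = 0 := by
    intro r₁ r₂ s₁ s₂ b₁ b₂ c₁ c₂ x₁ x₂ h1 h2
    have h3 := mulVec_inj B b c hdet (b₁.prod b₂) (c₁.prod c₂) (x := Sum.elim x₁ x₂) (by
      rw [mat_prod hB, Matrix.fromBlocks_mulVec]
      ext (i | i) <;> simp [h1, h2])
    refine ⟨funext fun i => ?_, funext fun i => ?_⟩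
    · exact congrFun h3 (Sum.inl i)
    · exact congrFun h3 (Sum.inr i)
  have B2 := Module.finBasis ℚ V₂
  have C2 := Module.finBasis ℚ W₂
  have B1 := Module.finBasis ℚ V₁
  have C1 := Module.finBasis ℚ W₁
  refine ⟨exists_isDet (fun r s b₁ c₁ x hx => ?_) (fun r s b₁ c₁ x hx => ?_),
    exists_isDet (fun r s b₂ c₂ x hx => ?_) (fun r s b₂ c₂ x hx => ?_)⟩
  · exact (hl _ _ _ _ b₁ B2 c₁ C2 x 0 hx (Matrix.zero_vecMul _)).1
  · exact (hr _ _ _ _ b₁ B2 c₁ C2 x 0 hx (Matrix.mulVec_zero _)).1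
  · exact (hl _ _ _ _ B1 b₂ C1 c₂ 0 x (Matrix.zero_vecMul _) hx).2
  · exact (hr _ _ _ _ B1 b₂ C1 c₂ 0 x (Matrix.mulVec_zero _) hx).2

end sum

end Pool.Agent.Q187.HT
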