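import Pool.Agent.Q187.RK.Defs
import Pool.Agent.Q187.HT.Lin

/-!
# Heights and leading coefficients: definitions
-/

open CategoryTheory AlgebraicGeometry

universe u v w

namespace Pool.Agent.Q187.HT

open Pool.Agent.H914 Pool.Agent.H914.VarClass Pool.Agent.H914.VarClass.Obj Pool.Agent.W492.BB
  Pool.Agent.W550.Corr Pool.Agent.TH133 Pool.Agent.Q187.AJS Pool.Agent.Q187.RK

variable {k : Type u} [Field k] {𝒱 : VarClass k} (C : TheoryData.{u, v, 0} 𝒱 ℚ) {X Y Z W : 𝒱.Obj}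
  {K : Type w} [Field K] (H : WeilTheoryData.{u, v, w} C K)

/-- The formal properties of the function `l X p j = L^*(p_* H^(2j-1)(X), j) / det Π` on motives over
`ℚ`, the quotient in `ℝ* / ℚ*` of the leading coefficient of the L-function at `s = j` by the
determinant of the period matrix in `ℚ`-bases: it is multiplicative, invariant under isomorphisms
and Tate twists, and trivial if `p` acts as zero on `H^(2j-1)(X)`. -/
structure IsLeading (l : ∀ X : 𝒱.Obj, C.A (X.prod X) → ℤ → ℝˣ ⧸ ratUnits) : Prop where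
  mul : ∀ (X : 𝒱.Obj) (p q : C.A (X.prod X)) (j : ℤ), IsProjector C p → IsProjector C q →
    comp C p q = 0 → comp C q p = 0 → l X (p + q) j = l X p j * l X q j
  iso : ∀ (X Y : 𝒱.Obj) (p : C.A (X.prod X)) (q : C.A (Y.prod Y)) (c j : ℤ) (f : C.A (X.prod Y))
    (g : C.A (Y.prod X)), IsProjector C p → IsProjector C q → C.Deg (X.dim + c) f →
    C.Deg (Y.dim - c) g → comp C f g = p → comp C g f = q → l X p j = l Y q (j + c)
  kills : ∀ (X : 𝒱.Obj) (p : C.A (X.prod X)) (j : ℤ), IsProjector C p → Kills H p (2 * j - 1) →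
    l X p j = 1

/-- A family of bilinear pairings with the adjunction property of the height pairing: for a
correspondence `Γ` from `X` to `Y` and homologically trivial cycles `x` on `X` and `y` on `Y` with
`codim Γ_* x + codim y = dim Y + 1` one has `⟨Γ_* x, y⟩ = ⟨x, (Γ^t)_* y⟩`. -/
def IsHeight (h : ∀ X : 𝒱.Obj, C.A X →ₗ[ℚ] C.A X →ₗ[ℚ] ℝ) : Prop :=
  ∀ (X Y : 𝒱.Obj) (c j : ℤ) (Γ : C.A (X.prod Y)) (x : C.A X) (y : C.A Y), C.Deg (X.dim + c) Γ →
    C.Deg j x → Triv C H x → C.Deg (Y.dim + 1 - (j + c)) y → Triv C H y →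
    h Y (C.act Γ x) y = h X x (C.act (tp C Γ) y)

/-- The height pairing `CH^j(X, p)_0 × CH^(dim X + 1 - j)(X, p^t)_0 → ℝ`. -/
noncomputable def pairing (h : ∀ X : 𝒱.Obj, C.A X →ₗ[ℚ] C.A X →ₗ[ℚ] ℝ) (p : C.A (X.prod X))
    (j : ℤ) : homTriv C H p j →ₗ[ℚ] homTriv C H (tp C p) (X.dim + 1 - j) →ₗ[ℚ] ℝ :=
  (h X).domRestrict₁₂ _ _

/-- The conjecture of Beilinson (all four parts) for the motive `(X, p)` in codimension `j`: the
spaces `CH^j(X, p)_0` and `CH^(dim X + 1 - j)(X, p^t)_0` have finite `ℚ`-bases with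
`r = e X p j = ord_{s=j} L` elements, and the matrix of the height pairing in these bases is
invertible, with determinant in the class `l X p j = L^* / det Π` of `ℝ* / ℚ*`. -/
def Beilinson (e : ∀ X : 𝒱.Obj, C.A (X.prod X) → ℤ → ℤ)
    (l : ∀ X : 𝒱.Obj, C.A (X.prod X) → ℤ → ℝˣ ⧸ ratUnits)
    (h : ∀ X : 𝒱.Obj, C.A X →ₗ[ℚ] C.A X →ₗ[ℚ] ℝ) (p : C.A (X.prod X)) (j : ℤ) : Prop :=
  ∃ r : ℕ, (r : ℤ) = e X p j ∧ IsDet (pairing C H h p j) r (l X p j)

/-- The height pairing on `CH^j(X, p)_0 × CH^(dim X + 1 - j)(X, p^t)_0` is non-degenerate: these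
spaces are finite-dimensional, and the determinant in `ℚ`-bases is defined and nonzero. -/
def NonDeg (h : ∀ X : 𝒱.Obj, C.A X →ₗ[ℚ] C.A X →ₗ[ℚ] ℝ) (p : C.A (X.prod X)) (j : ℤ) : Prop :=
  ∃ r u, IsDet (pairing C H h p j) r u

end Pool.Agent.Q187.HT
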