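import Pool.Agent.Q187.HT.Abs2
import Pool.Agent.Q187.HT.Defs
import Pool.Agent.Q187.RK.Final

/-!
# The height pairing and the leading coefficient as additive invariants
-/

open CategoryTheory AlgebraicGeometry

universe u v w

namespace Pool.Agent.Q187.HT

open Pool.Agent.H914 Pool.Agent.H914.VarClass Pool.Agent.H914.VarClass.Obj Pool.Agent.W492.BB
  Pool.Agent.W550.Corr Pool.Agent.TH133 Pool.Agent.Y148.BB Pool.Agent.Q187.AJ Pool.Agent.Q187.RK

set_option linter.unusedSectionVars false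
set_option linter.unusedVariables false

variable {k : Type u} [Field k] {𝒱 : VarClass k}

variable {C : TheoryData.{u, v, 0} 𝒱 ℚ} [hC : IsChowProj C] {K : Type w} [Field K]
  {H : WeilTheoryData.{u, v, w} C K} [hH : IsWeilProj H] {X Y Z W B P M L : 𝒱.Obj}
  {e : ∀ X : 𝒱.Obj, C.A (X.prod X) → ℤ → ℤ}
  {l : ∀ X : 𝒱.Obj, C.A (X.prod X) → ℤ → ℝˣ ⧸ ratUnits}
  {h : ∀ X : 𝒱.Obj, C.A X →ₗ[ℚ] C.A X →ₗ[ℚ] ℝ}

omit hC hH in
lemma pairing_apply (p : C.A (X.prod X)) (j : ℤ) (v : homTriv C H p j)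
    (w : homTriv C H (tp C p) (X.dim + 1 - j)) : pairing C H h p j v w = h X v.1 w.1 := rfl

include hC hH

lemma pr_tp {p : C.A (X.prod X)} (hp : Pr p) : Pr (tp C p) :=
  ⟨tp_mem C hp.1, by rw [← tp_comp C (ch_comm C), hp.2]⟩

section add

variable {p q : C.A (X.prod X)} (hp : Pr p) (hq : Pr q) (h1 : C.comp p q = 0)
  (h2 : C.comp q p = 0)

/-- Direct sums for the transposed projectors. -/
noncomputable def equivSumT (hp : Pr p) (hq : Pr q) (h1 : C.comp p q = 0)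
    (h2 : C.comp q p = 0) (j : ℤ) :
    homTriv C H (tp C (p + q)) j ≃ₗ[ℚ] homTriv C H (tp C p) j × homTriv C H (tp C q) j :=
  (LinearEquiv.ofEq _ _ (by rw [tp_add])).trans
    (equivSum (pr_tp (H := H) hp) (pr_tp (H := H) hq)
      (by rw [← tp_comp C (ch_comm C), h2, tp_zero])
      (by rw [← tp_comp C (ch_comm C), h1, tp_zero]) j)

/-- The orthogonal sum of the pairings. -/
noncomputable def sumPairing (h : ∀ X : 𝒱.Obj, C.A X →ₗ[ℚ] C.A X →ₗ[ℚ] ℝ)
    (p q : C.A (X.prod X)) (j : ℤ) : (homTriv C H p j × homTriv C H q j) →ₗ[ℚ]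
      (homTriv C H (tp C p) (X.dim + 1 - j) × homTriv C H (tp C q) (X.dim + 1 - j)) →ₗ[ℚ] ℝ :=
  (pairing C H h p j).compl₁₂ (LinearMap.fst ℚ _ _) (LinearMap.fst ℚ _ _) +
    (pairing C H h q j).compl₁₂ (LinearMap.snd ℚ _ _) (LinearMap.snd ℚ _ _)

lemma adj0 (hh : IsHeight C H h) {r : C.A (X.prod X)} (hr : Pr r) {j : ℤ} {x y : C.A X}
    (hx : x ∈ C.gr X j) (hx0 : H.cl x = 0) (hy : y ∈ C.gr X (X.dim + 1 - j)) (hy0 : H.cl y = 0) :
    h X (C.act r x) y = h X x (C.act (tp C r) y) :=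
  hh X X 0 j r x y (by rw [add_zero]; exact hr.1) hx hx0 (by rw [add_zero]; exact hy) hy0

lemma sumPairing_eq (hh : IsHeight C H h) (hp : Pr p) (hq : Pr q) (h1 : C.comp p q = 0)
    (h2 : C.comp q p = 0) {j : ℤ} (v : homTriv C H (p + q) j)
    (w : homTriv C H (tp C (p + q)) (X.dim + 1 - j)) :
    sumPairing h p q j (equivSum hp hq h1 h2 j v) (equivSumT hp hq h1 h2 _ w) =
      pairing C H h (p + q) j v w := by
  obtain ⟨v, hv, hv0, hvv⟩ := v
  obtain ⟨w, hw, hw0, hww⟩ := w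
  change h X (C.act p v) (C.act (tp C p) w) + h X (C.act q v) (C.act (tp C q) w) = h X v w
  have hv0' : H.cl v = 0 := hv0
  have hw0' : H.cl w = 0 := hw0
  have c1 : h X (C.act p v) (C.act (tp C q) w) = 0 := by
    rw [← adj0 hh hq (act_mem0 C hp.1 hv) (by rw [cl_act H, hv0', TheoryData.act_map_zero]) hw hw0',
      ← C.act_comp, h1, TheoryData.act_zero, map_zero, LinearMap.zero_apply]
  have c2 : h X (C.act q v) (C.act (tp C p) w) = 0 := by
    rw [← adj0 hh hp (act_mem0 C hq.1 hv) (by rw [cl_act H, hv0', TheoryData.act_map_zero]) hw hw0',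
      ← C.act_comp, h2, TheoryData.act_zero, map_zero, LinearMap.zero_apply]
  have ev : v = C.act p v + C.act q v := by rw [← C.act_add]; exact hvv.symm
  have ew : w = C.act (tp C p) w + C.act (tp C q) w := by
    rw [← C.act_add, ← tp_add]; exact hww.symm
  conv_rhs => rw [ev, ew]
  rw [map_add (h X), LinearMap.add_apply, map_add, map_add, c1, c2, add_zero, zero_add]

lemma isDet_add (hh : IsHeight C H h) (hp : Pr p) (hq : Pr q) (h1 : C.comp p q = 0)
    (h2 : C.comp q p = 0) {j : ℤ} {r₁ r₂ : ℕ} {u₁ u₂ : ℝˣ ⧸ ratUnits}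
    (hd₁ : IsDet (pairing C H h p j) r₁ u₁) (hd₂ : IsDet (pairing C H h q j) r₂ u₂) :
    IsDet (pairing C H h (p + q) j) (r₁ + r₂) (u₁ * u₂) := by
  have h3 : IsDet (sumPairing (H := H) h p q j) (r₁ + r₂) (u₁ * u₂) :=
    isDet_prod (fun v w => rfl) hd₁ hd₂
  refine isDet_iso (equivSum hp hq h1 h2 j).symm (equivSumT hp hq h1 h2 _).symm (fun v w => ?_) h3
  rw [← sumPairing_eq hh hp hq h1 h2, LinearEquiv.apply_symm_apply, LinearEquiv.apply_symm_apply]

lemma nonDeg_add (hh : IsHeight C H h) (hp : Pr p) (hq : Pr q) (h1 : C.comp p q = 0)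
    (h2 : C.comp q p = 0) (j : ℤ) :
    NonDeg C H h (p + q) j ↔ NonDeg C H h p j ∧ NonDeg C H h q j := by
  constructor
  · rintro ⟨r, u, hd⟩
    have h3 : IsDet (sumPairing (H := H) h p q j) r u :=
      isDet_iso (equivSum hp hq h1 h2 j) (equivSumT hp hq h1 h2 _)
        (fun v w => sumPairing_eq hh hp hq h1 h2 v w) hd
    exact isDet_of_prod (fun v w => rfl) h3
  · rintro ⟨⟨r₁, u₁, hd₁⟩, r₂, u₂, hd₂⟩
    exact ⟨_, _, isDet_add hh hp hq h1 h2 hd₁ hd₂⟩

end add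

section iso

variable {p : C.A (X.prod X)} {q : C.A (Y.prod Y)} {c : ℤ} {f : C.A (X.prod Y)}
    {g : C.A (Y.prod X)}

/-- The isomorphism of the dual motives. -/
noncomputable def equivIsoT (hf : C.Deg (X.dim + c) f) (hg : C.Deg (Y.dim - c) g)
    (h1 : C.comp f g = p) (h2 : C.comp g f = q) (j : ℤ) :
    homTriv C H (tp C p) (X.dim + 1 - j) ≃ₗ[ℚ] homTriv C H (tp C q) (Y.dim + 1 - (j + c)) :=
  (equivIso (c := Y.dim - X.dim - c) (f := tp C g) (g := tp C f)
    (gr_congr (by ring) (tp_mem C hg)) (gr_congr (by ring) (tp_mem C hf))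
    (by rw [← tp_comp C (ch_comm C), h1]) (by rw [← tp_comp C (ch_comm C), h2]) _).trans
    (LinearEquiv.ofEq _ _ (by congr 1; ring))

lemma isDet_iso' (hh : IsHeight C H h) (hf : C.Deg (X.dim + c) f) (hg : C.Deg (Y.dim - c) g)
    (h1 : C.comp f g = p) (h2 : C.comp g f = q) {j : ℤ} {r : ℕ} {u : ℝˣ ⧸ ratUnits}
    (hd : IsDet (pairing C H h p j) r u) : IsDet (pairing C H h q (j + c)) r u := by
  refine isDet_iso (equivIso hf hg h1 h2 j) (equivIsoT hf hg h1 h2 j) (fun v w => ?_) hd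
  obtain ⟨v, hv, hv0, hvv⟩ := v
  obtain ⟨w, hw, hw0, hww⟩ := w
  change h Y (C.act f v) (C.act (tp C g) w) = h X v w
  have hv0' : H.cl v = 0 := hv0
  have h3 := hh Y X (-c) (j + c) g (C.act f v) w (by rw [← sub_eq_add_neg]; exact hg)
    (act_mem' C hf hv) (by
      change H.cl _ = 0
      rw [cl_act H, hv0', TheoryData.act_map_zero]) (gr_congr (by ring) hw) hw0
  rw [← h3, ← C.act_comp, h1, hvv]

lemma nonDeg_iso (hh : IsHeight C H h) (hf : C.Deg (X.dim + c) f) (hg : C.Deg (Y.dim - c) g)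
    (h1 : C.comp f g = p) (h2 : C.comp g f = q) (j : ℤ) :
    NonDeg C H h p j ↔ NonDeg C H h q (j + c) := by
  constructor
  · rintro ⟨r, u, hd⟩
    exact ⟨r, u, isDet_iso' hh hf hg h1 h2 hd⟩
  · rintro ⟨r, u, hd⟩
    have h3 := isDet_iso' (c := -c) hh (by rw [← sub_eq_add_neg]; exact hg)
      (by rw [sub_neg_eq_add]; exact hf) h2 h1 hd
    rw [add_neg_cancel_right] at h3
    exact ⟨r, u, h3⟩

end iso

lemma isDet_bot2 {p : C.A (X.prod X)} {j : ℤ} (hb : Bot2 H p j) :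
    IsDet (pairing C H h p j) 0 1 := by
  obtain ⟨h1, h2⟩ := hb
  have : Subsingleton (homTriv C H p j) := by rw [h1]; infer_instance
  have : Subsingleton (homTriv C H (tp C p) (X.dim + 1 - j)) := by rw [h2]; infer_instance
  exact isDet_zero _

lemma isFn_nonDeg (hh : IsHeight C H h) : IsFn H (fun X p j => NonDeg C H h p j) where
  add X p q j hp hq h1 h2 := nonDeg_add hh hp hq h1 h2 j
  iso X Y p q c j f g hp hq hf hg h1 h2 := nonDeg_iso hh hf hg h1 h2 j
  zero X p j hp hb := ⟨0, 1, isDet_bot2 hb⟩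

open Classical in
/-- The difference of the two sides of the formula for the leading coefficient. -/
noncomputable def dl (C : TheoryData.{u, v, 0} 𝒱 ℚ) {K : Type w} [Field K]
    (H : WeilTheoryData.{u, v, w} C K)
    (l : ∀ X : 𝒱.Obj, C.A (X.prod X) → ℤ → ℝˣ ⧸ ratUnits)
    (h : ∀ X : 𝒱.Obj, C.A X →ₗ[ℚ] C.A X →ₗ[ℚ] ℝ) (X : 𝒱.Obj) (p : C.A (X.prod X)) (j : ℤ) :
    Additive (ℝˣ ⧸ ratUnits) :=
  if hn : NonDeg C H h p j then Additive.ofMul (l X p j / hn.choose_spec.choose) else 0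

omit hC hH in
lemma dl_eq {p : C.A (X.prod X)} {j : ℤ} {r : ℕ} {u : ℝˣ ⧸ ratUnits}
    (hd : IsDet (pairing C H h p j) r u) : dl C H l h X p j = Additive.ofMul (l X p j / u) := by
  have hn : NonDeg C H h p j := ⟨r, u, hd⟩
  rw [dl, dif_pos hn, (isDet_unique hn.choose_spec.choose_spec hd).2]

lemma isDef_dl (hl : IsLeading C H l) (hh : IsHeight C H h) :
    IsDef H (fun X p j => NonDeg C H h p j) (dl C H l h) where
  isFn := isFn_nonDeg hh
  add X p q j hp hq h1 h2 hfp hfq := by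
    obtain ⟨r₁, u₁, hd₁⟩ := hfp
    obtain ⟨r₂, u₂, hd₂⟩ := hfq
    rw [dl_eq (isDet_add hh hp hq h1 h2 hd₁ hd₂), dl_eq hd₁, dl_eq hd₂,
      hl.mul X p q j hp hq h1 h2, ← ofMul_mul]
    exact congrArg Additive.ofMul (mul_div_mul_comm (l X p j) (l X q j) u₁ u₂)
  iso X Y p q c j f g hp hq hf hg h1 h2 := by
    by_cases hn : NonDeg C H h p j
    · obtain ⟨r, u, hd⟩ := hn
      rw [dl_eq hd, dl_eq (isDet_iso' hh hf hg h1 h2 hd), hl.iso X Y p q c j f g hp hq hf hg h1 h2]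
    · have hn' : ¬ NonDeg C H h q (j + c) := fun h3 => hn ((nonDeg_iso hh hf hg h1 h2 j).2 h3)
      rw [dl, dif_neg hn, dl, dif_neg hn']
  zero X p j hp hk hb := by
    rw [dl_eq (isDet_bot2 hb), hl.kills X p j hp hk, div_one, ofMul_one]

lemma beilinson_iff {p : C.A (X.prod X)} {j : ℤ} :
    Beilinson C H e l h p j ↔
      RankFormula C H e p j ∧ NonDeg C H h p j ∧ dl C H l h X p j = 0 := by
  constructor
  · rintro ⟨r, hr, hd⟩
    have hd' := hd
    obtain ⟨b, -⟩ := hd'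
    have h1 : Module.Finite ℚ (homTriv C H p j) := Module.Finite.of_basis b
    have h2 := Module.finrank_eq_card_basis b
    rw [Fintype.card_fin] at h2
    refine ⟨⟨h1, by rw [h2, hr]⟩, ⟨r, _, hd⟩, ?_⟩
    rw [dl_eq hd, div_self', ofMul_one]
  · rintro ⟨⟨-, h1⟩, ⟨r, u, hd⟩, h2⟩
    rw [dl_eq hd] at h2
    have h3 : l X p j = u := div_eq_one.1 (Additive.ofMul.injective h2)
    have hd' := hd
    obtain ⟨b, -⟩ := hd'
    have h4 := Module.finrank_eq_card_basis b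
    rw [Fintype.card_fin] at h4
    exact ⟨r, by rw [← h1, h4], by rw [h3]; exact hd⟩

/-! ### The theorem -/

section main

variable (he : IsOrder C H e) (hl : IsLeading C H l) (hh : IsHeight C H h)
include he hl hh

lemma pf_of_middle {o : C.A L} (hL : IsLine C L o) {N : ℤ}
    (hm : ∀ X, IsProd C H X → ∀ i : ℤ, i ≤ N → (X.dim : ℤ) = 2 * i - 1 →
      Beilinson C H e l h (dg C X) i) :
    PrimForm H (D H e) N ∧
      PF C H (fun X p j => NonDeg C H h p j) (dl C H l h) N := by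
  have h1 := (main he hL N fun X hX i hi hd => (beilinson_iff.1 (hm X hX i hi hd)).1).1
  refine ⟨h1, pf_of_sy (isDef_dl hl hh) (fun P p hp j hj hj' hne => (h1 P p hp j hj hj').1 hne)
    fun W hW => sym_of_middle' (isDef_dl hl hh) hL
      (fun X hX i hi hd => (beilinson_iff.1 (hm X hX i hi hd)).2) hW⟩

lemma of_pf {N : ℤ} (h1 : PrimForm H (D H e) N)
    (h2 : PF C H (fun X p j => NonDeg C H h p j) (dl C H l h) N) (hX : IsProd C H X)
    (hd : (X.dim : ℤ) ≤ N) (j : ℤ) : Beilinson C H e l h (dg C X) j :=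
  beilinson_iff.2 ⟨rankFormula_iff.2 (full_of_prim (isDefect_D he) h1 hX hd j),
    full_of_prim' (isDef_dl hl hh) h2 hX hd j⟩

lemma prim_of_pf {N : ℤ} (h1 : PrimForm H (D H e) N)
    (h2 : PF C H (fun X p j => NonDeg C H h p j) (dl C H l h) N) {p : C.A (P.prod P)}
    (hp : IsPrim C H P p) (hd : (P.dim : ℤ) ≤ N) (j : ℤ) : Beilinson C H e l h p j :=
  beilinson_iff.2 ⟨rankFormula_iff.2 (full_of_primForm (isDefect_D he) h1 hp hd j),
    fu_of_pf (isDef_dl hl hh) h2 hp hd j⟩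

lemma pf_of_prim (hm : ∀ (P : 𝒱.Obj) (p : C.A (P.prod P)) (j : ℕ), IsPrim C H P p →
      Beilinson C H e l h p j) (N : ℤ) :
    PrimForm H (D H e) N ∧
      PF C H (fun X p j => NonDeg C H h p j) (dl C H l h) N := by
  have h1 := (primForm_iff he).2 fun P p j hp => (beilinson_iff.1 (hm P p j hp)).1
  refine ⟨h1 N, fun P p hp j hj hj' => ⟨(h1 N P p hp j hj hj').1, fun heq => ?_⟩⟩
  have h2 : ((j.toNat : ℕ) : ℤ) = j := Int.toNat_of_nonneg (by omega)
  have h3 := (beilinson_iff.1 (hm P p j.toNat hp)).2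
  rw [h2] at h3
  exact h3

theorem beilinson_middle
    (hL : ∃ (L : 𝒱.Obj) (o : C.A L), L.dim = 1 ∧ AJS.DegreeOne C o ∧ AJS.odd C o = 0) :
    (∀ N : ℕ, (∀ (X : 𝒱.Obj) (i : ℕ), IsProd C H X → X.dim + 1 = 2 * i → i ≤ N →
        Beilinson C H e l h (AJS.diag C X) i) →
      ∀ (X : 𝒱.Obj) (j : ℕ), IsProd C H X → X.dim ≤ N →
        Beilinson C H e l h (AJS.diag C X) j) ∧
    List.TFAE [
      ∀ (X : 𝒱.Obj) (j : ℕ), IsProd C H X → Beilinson C H e l h (AJS.diag C X) j,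
      ∀ (X : 𝒱.Obj) (i : ℕ), IsProd C H X → X.dim + 1 = 2 * i →
        Beilinson C H e l h (AJS.diag C X) i,
      ∀ (P : 𝒱.Obj) (p : C.A (P.prod P)) (j : ℕ), IsPrim C H P p →
        Beilinson C H e l h p j] ∧
    ((∀ (X : 𝒱.Obj) (j : ℕ), IsProd C H X → Beilinson C H e l h (AJS.diag C X) j) →
      ∀ (X : 𝒱.Obj) (p : C.A (X.prod X)) (j : ℕ), IsProd C H X → IsProjector C p →
        NonDeg C H h p j) := by
  obtain ⟨L, o, h1, h2, h3⟩ := hL
  have hline := line_conv h1 h2 h3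
  have conv : ∀ N : ℤ, (∀ (X : 𝒱.Obj) (i : ℕ), IsProd C H X → X.dim + 1 = 2 * i → (i : ℤ) ≤ N →
        Beilinson C H e l h (AJS.diag C X) i) →
      ∀ X, IsProd C H X → ∀ i : ℤ, i ≤ N → (X.dim : ℤ) = 2 * i - 1 →
        Beilinson C H e l h (dg C X) i := by
    intro N hm X hX i hi hd
    have h1 : ((i.toNat : ℕ) : ℤ) = i := Int.toNat_of_nonneg (by omega)
    have h2 := hm X i.toNat hX (by omega) (by omega)
    rwa [h1] at h2
  refine ⟨fun N hm X j hX hd => ?_, ?_, fun hall X p j hX hp => ?_⟩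
  · obtain ⟨h4, h5⟩ := pf_of_middle he hl hh hline
      (conv N fun X i hX hd hi => hm X i hX hd (by exact_mod_cast hi))
    exact of_pf he hl hh h4 h5 hX (by exact_mod_cast hd) j
  · tfae_have 1 → 2 := fun hm X i hX _ => hm X i hX
    tfae_have 2 → 3 := fun hm P p j hp => by
      obtain ⟨h4, h5⟩ := pf_of_middle he hl hh hline
        (conv P.dim fun X i hX hd hi => hm X i hX hd)
      exact prim_of_pf he hl hh h4 h5 hp le_rfl j
    tfae_have 3 → 1 := fun hm X j hX => by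
      obtain ⟨h4, h5⟩ := pf_of_prim he hl hh hm X.dim
      exact of_pf he hl hh h4 h5 hX le_rfl j
    tfae_finish
  · have h4 := (beilinson_iff.1 (hall X j hX)).2.1
    have hp' : Pr p := hp
    have h5 : Pr (dg C X - p) := by
      refine ⟨Submodule.sub_mem _ (dg_mem C X) hp'.1, ?_⟩
      rw [comp_sub, comp_dg, sub_comp, dg_comp, hp'.2, sub_self, sub_zero]
    have h6 : C.comp p (dg C X - p) = 0 := by rw [comp_sub, comp_dg, hp'.2, sub_self]
    have h7 : C.comp (dg C X - p) p = 0 := by rw [sub_comp, dg_comp, hp'.2, sub_self]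
    have h8 : p + (dg C X - p) = dg C X := by abel
    have h9 : NonDeg C H h (p + (dg C X - p)) (j : ℤ) := by rw [h8]; exact h4
    exact ((nonDeg_add hh hp' h5 h6 h7 j).1 h9).1

end main

end Pool.Agent.Q187.HT
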